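import Pool.Agent.N905.FM.Main

/-! The counting theorem in the form used below. -/

set_option autoImplicit false

namespace Pool.Agent.N905.EX

open Finset Pool.Agent.TH930.EBQ
export Pool.Agent.N905.FM (η0)

lemma eta0_lt : η0 < 94 / 100 := by unfold Pool.Agent.N905.FM.η0; norm_num

lemma eta0_gt : 93 / 100 < η0 := by unfold Pool.Agent.N905.FM.η0; norm_num

lemma eta0_pos : 0 < η0 := lt_trans (by norm_num) eta0_gt

lemma floor_third (W : ℕ) : ⌊(1 / 3 : ℝ) * W⌋₊ = W / 3 := by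
  have h : (1 / 3 : ℝ) * W = (W : ℝ) / (3 : ℕ) := by push_cast; ring
  rw [h, Nat.floor_div_natCast, Nat.floor_natCast]

lemma two_exp (W : ℕ) (η : ℝ) : Real.exp (W * (Real.log 2 * η)) = ((2 : ℝ) ^ η) ^ W := by
  rw [← Real.rpow_natCast, ← Real.rpow_mul (by norm_num), Real.rpow_def_of_pos (by norm_num)]
  congr 1
  ring

/-- the counting theorem -/
theorem count_ex : ∃ C μ : ℝ, 0 < C ∧ 0 < μ ∧ μ ≤ 1 ∧
    ∀ k : ℤ, Odd k → ∀ W Q : ℕ, 1 ≤ Q → (Q : ℝ) ≤ Real.exp (μ * W) → |(k : ℝ)| ≤ Real.exp (μ * W) →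
    ∀ (u : ℤ) (B : Finset ℤ), (∀ x ∈ B, |x - u| ≤ 2 ^ W ∧
      ∀ j ≤ W + ⌊(1 / 3 : ℝ) * W⌋₊, 2 ^ j ≤ Q * 3 ^ ones (wd k j x)) →
      (B.card : ℝ) ≤ C * ((2 : ℝ) ^ η0) ^ W := by
  obtain ⟨C, μ, hC, hμ0, hμ1, h⟩ := Pool.Agent.N905.FM.count_explicit
  refine ⟨C, μ, hC, hμ0, hμ1, ?_⟩
  intro k hk W Q hQ1 hQ hkμ u B hB
  have := h k hk W Q hQ1 hQ hkμ u B (by
    intro x hx
    obtain ⟨a, b⟩ := hB x hx
    rw [floor_third] at b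
    exact ⟨a, b⟩)
  rwa [two_exp] at this

end Pool.Agent.N905.EX
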