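import Pool.Agent.TH930.LT.Law
import Pool.Agent.N905.EX.Base

set_option autoImplicit false

/-! Descending through the levels, with an account of the time (general form). -/

namespace Pool.Agent.N905.EX

open Finset Pool.Agent.Helper894.Collatz Pool.Agent.H377R2 Pool.Agent.H319R2.Lln

/-- the points of level `i > l` outside of `Qf i` fall by `exp (-a Kf i)` within `Kf i` steps -/
def Falls (Kf : ℕ → ℕ) (Qf : ℕ → Finset ℕ) (a : ℝ) (l : ℕ) : Prop :=
  ∀ i z : ℕ, l < i → z < 2 ^ i → 2 ^ i ≤ 2 * z → z ∉ Qf i → l ≤ Kf i ∧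
    ∃ r ≤ Kf i, ((T^[r] z : ℕ) : ℝ) < z * Real.exp (-(a * Kf i)) ∧ 4 * T^[r] z < z

open scoped Classical in
/-- the points of level `i` which stay at level `≥ i` until a time `s` in `(i, K]` at which the value is above
`V` -/
noncomputable def Wx (Kf : ℕ → ℕ) (V : ℝ) (i : ℕ) : Finset ℕ :=
  (range (2 ^ i)).filter fun z => 2 ^ i ≤ 2 * z ∧
    ∃ s, i < s ∧ s ≤ Kf i ∧ (∀ r < s, 2 ^ (i - 1) ≤ T^[r] z) ∧ V < (T^[s] z : ℕ)

lemma mem_Wx {Kf : ℕ → ℕ} {V : ℝ} {i z : ℕ} : z ∈ Wx Kf V i ↔ z < 2 ^ i ∧ 2 ^ i ≤ 2 * z ∧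
    ∃ s, i < s ∧ s ≤ Kf i ∧ (∀ r < s, 2 ^ (i - 1) ≤ T^[r] z) ∧ V < (T^[s] z : ℕ) := by
  classical
  unfold Wx
  rw [mem_filter, mem_range]

/-- THE CHAIN, with the time -/
theorem time_chain {Kf : ℕ → ℕ} {Qf : ℕ → Finset ℕ} {a B : ℝ} (ha : 0 < a) {k l x M : ℕ}
    (hQf : Falls Kf Qf a l) (hx : 0 < x)
    (hxk : x < 2 ^ k) (hB0 : 0 < B) (hl2 : B * Real.log 2 ≤ (B * a - 1) * l)
    (hBa : 1 ≤ B * a) (hM : B * (k * Real.log 2) ≤ M)
    (h : ∀ i m, l < i → i ≤ k → m ≤ M → FP i m x → T^[m] x ∉ Qf i) :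
    ∀ i m, i ≤ k → FP i m x → 2 ^ i ≤ 2 * T^[m] x →
      (m : ℝ) ≤ B * (Real.log x - Real.log (T^[m] x : ℕ)) →
      ∃ m', T^[m'] x < 2 ^ l ∧ (m' : ℝ) ≤ B * (Real.log x - Real.log (T^[m'] x : ℕ)) := by
  classical
  have hl0 : 0 < Real.log 2 := Real.log_pos (by norm_num)
  intro i
  induction i using Nat.strong_induction_on with
  | _ i ih =>
    intro m hik hfp hy hm
    rcases Nat.lt_or_ge l i with hli | hli
    swap
    · exact ⟨m, hfp.2.trans_le (Nat.pow_le_pow_right (by norm_num) hli), hm⟩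
    set z := T^[m] x with hz
    have hz0 : 0 < z := iter_pos hx m
    have hz0R : (0 : ℝ) < z := by exact_mod_cast hz0
    have hlz : 0 ≤ Real.log (z : ℝ) := Real.log_natCast_nonneg z
    have hlx : Real.log x ≤ k * Real.log 2 := by
      rw [← Real.log_pow]
      exact Real.log_le_log (by exact_mod_cast hx) (by exact_mod_cast hxk.le)
    have hmM : m ≤ M := by
      have h1 : (m : ℝ) ≤ M := by
        refine hm.trans (le_trans ?_ hM)
        exact mul_le_mul_of_nonneg_left (by linarith) hB0.le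
      exact_mod_cast h1
    have hns := h i m hli hik hmM hfp
    obtain ⟨hlK, r0, hr0, q1, q2⟩ := hQf i z hli hfp.2 hy hns
    set K := Kf i with hK
    have hKl : (l : ℝ) ≤ K := by exact_mod_cast hlK
    set w0 := T^[r0] z with hw0
    have hw00 : 0 < w0 := iter_pos hz0 r0
    have hw0R : (0 : ℝ) < w0 := by exact_mod_cast hw00
    have hlw0 : Real.log w0 ≤ Real.log z - a * K := by
      have h1 := Real.log_le_log hw0R q1.le
      rw [Real.log_mul hz0R.ne' (Real.exp_pos _).ne', Real.log_exp] at h1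
      linarith
    -- the level of `w0`
    set j := Nat.log 2 w0 + 1 with hj
    have hj1 : w0 < 2 ^ j := Nat.lt_pow_succ_log_self (by norm_num) _
    have hj2 : 2 ^ (j - 1) ≤ w0 := by
      rw [hj, Nat.add_sub_cancel]; exact Nat.pow_log_le_self 2 hw00.ne'
    have hji : j < i := by
      have h1 : 2 ^ (j - 1) * 4 < 2 ^ i := by
        have := hfp.2
        omega
      have h2 : 2 ^ (j - 1) * 4 = 2 ^ (j - 1 + 2) := by rw [pow_add]; norm_num
      rw [h2] at h1
      have := (Nat.pow_lt_pow_iff_right (by norm_num : 1 < 2)).1 h1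
      omega
    have hex : ∃ r, T^[r] x < 2 ^ j := ⟨r0 + m, by rw [Function.iterate_add_apply]; exact hj1⟩
    set m' := Nat.find hex with hm'
    have hm'1 : T^[m'] x < 2 ^ j := Nat.find_spec hex
    have hm'2 : ∀ r < m', 2 ^ j ≤ T^[r] x := fun r hr => not_lt.1 (Nat.find_min hex hr)
    have hm'3 : m' ≤ K + m := (Nat.find_min' hex (by rw [Function.iterate_add_apply]; exact hj1)).trans
      (Nat.add_le_add_right hr0 m)
    set w := T^[m'] x with hw
    have hw_0 : 0 < w := iter_pos hx m'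
    have hwR : (0 : ℝ) < w := by exact_mod_cast hw_0
    set j' := Nat.log 2 w + 1 with hj'
    have hj'1 : w < 2 ^ j' := Nat.lt_pow_succ_log_self (by norm_num) _
    have hj'2 : 2 ^ j' ≤ 2 * w := by
      rw [hj', pow_succ, mul_comm]
      exact Nat.mul_le_mul_left _ (Nat.pow_log_le_self 2 hw_0.ne')
    have hj'j : j' ≤ j := by
      have h1 : 2 ^ (j' - 1) < 2 ^ j := by
        rw [hj', Nat.add_sub_cancel]
        exact (Nat.pow_log_le_self 2 hw_0.ne').trans_lt hm'1
      have := (Nat.pow_lt_pow_iff_right (by norm_num : 1 < 2)).1 h1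
      omega
    have hfp' : FP j' m' x :=
      ⟨fun r hr => (Nat.pow_le_pow_right (by norm_num) hj'j).trans (hm'2 r hr), hj'1⟩
    apply ih j' (by omega) m' (by omega) hfp' hj'2
    -- the time
    have hlw : Real.log w ≤ Real.log w0 + Real.log 2 := by
      have h1 : (w : ℝ) ≤ w0 * 2 := by
        have h2 : w ≤ w0 * 2 := by
          have h3 : 2 ^ j = 2 * 2 ^ (j - 1) := by rw [← pow_succ']; congr 1
          omega
        exact_mod_cast h2
      have h2 := Real.log_le_log hwR h1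
      rwa [Real.log_mul hw0R.ne' (by norm_num)] at h2
    have h1 : (m' : ℝ) ≤ K + m := by exact_mod_cast hm'3
    have h2 : (B * a - 1) * l ≤ (B * a - 1) * K := mul_le_mul_of_nonneg_left hKl (by linarith)
    have h3 : B * (Real.log z - Real.log w) ≥ B * (a * K - Real.log 2) := by
      apply mul_le_mul_of_nonneg_left _ hB0.le
      linarith
    nlinarith

/-- the chain from the start -/
theorem time_start {Kf : ℕ → ℕ} {Qf : ℕ → Finset ℕ} {a B : ℝ} (ha : 0 < a) {k l x M : ℕ}
    (hQf : Falls Kf Qf a l) (hx : 0 < x)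
    (hxk : x < 2 ^ k) (hB0 : 0 < B) (hl2 : B * Real.log 2 ≤ (B * a - 1) * l)
    (hBa : 1 ≤ B * a) (hM : B * (k * Real.log 2) ≤ M)
    (h : ∀ i m, l < i → i ≤ k → m ≤ M → FP i m x → T^[m] x ∉ Qf i) :
    ∃ m', T^[m'] x < 2 ^ l ∧ (m' : ℝ) ≤ B * (Real.log x - Real.log (T^[m'] x : ℕ)) := by
  have hj1 : x < 2 ^ (Nat.log 2 x + 1) := Nat.lt_pow_succ_log_self (by norm_num) _
  have hj2 : 2 ^ (Nat.log 2 x) ≤ x := Nat.pow_log_le_self 2 hx.ne'
  have hjk : Nat.log 2 x + 1 ≤ k := by
    have := (Nat.pow_lt_pow_iff_right (by norm_num : 1 < 2)).1 (hj2.trans_lt hxk)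
    omega
  refine time_chain ha hQf hx hxk hB0 hl2 hBa hM h (Nat.log 2 x + 1) 0 hjk
    ⟨fun j hj => by omega, by simpa using hj1⟩ ?_ (by simp)
  simp only [Function.iterate_zero, id]
  rw [pow_succ, mul_comm]
  exact Nat.mul_le_mul_left _ hj2

/-- the values before the passage -/
theorem exc_chain {Kf : ℕ → ℕ} {Qf : ℕ → Finset ℕ} {a V : ℝ} {k l x M mF : ℕ}
    (hQf : Falls Kf Qf a l) (hx : 0 < x)
    (hxk : x < 2 ^ k) (hxV : (x : ℝ) ≤ V) (hmF : T^[mF] x < 2 ^ l)
    (hmM : mF ≤ M)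
    (h : ∀ i m, l < i → i ≤ k → m ≤ M → FP i m x →
      T^[m] x ∉ Qf i ∧ T^[m] x ∉ Big V i ∧ T^[m] x ∉ Wx Kf V i) :
    ∀ d, l + d ≤ k → ∃ m ≤ mF, FP (k - d) m x ∧ ∀ j ≤ m, ((T^[j] x : ℕ) : ℝ) ≤ V := by
  classical
  intro d
  induction d with
  | zero =>
    intro _
    refine ⟨0, by omega, ⟨by intro j hj; omega, by simpa using hxk⟩, ?_⟩
    intro j hj
    have : j = 0 := by omega
    subst this
    simpa using hxV
  | succ d ih =>
    intro hd
    obtain ⟨m, hm, hfp, hq⟩ := ih (by omega)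
    set i := k - d with hi
    have hi0 : 0 < i := by omega
    have hli : l < i := by omega
    have hpow : 2 ^ i = 2 * 2 ^ (i - 1) := by rw [← pow_succ']; congr 1; omega
    have e : k - (d + 1) = i - 1 := by omega
    rw [e]
    rcases Nat.lt_or_ge (T^[m] x) (2 ^ (i - 1)) with h1 | h1
    · exact ⟨m, hm, ⟨fun j hj => by have := hfp.1 j hj; omega, h1⟩, hq⟩
    · obtain ⟨g1, g2, g3⟩ := h i m hli (by omega) (hm.trans hmM) hfp
      set z := T^[m] x with hz
      have hz0 : 0 < z := iter_pos hx m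
      have hz1 : z < 2 ^ i := hfp.2
      obtain ⟨-, r0, hr0, -, q2⟩ := hQf i z hli hz1 (by omega) g1
      have hlt : T^[r0] z < 2 ^ (i - 1) := by omega
      have hex : ∃ r, T^[r] z < 2 ^ (i - 1) := ⟨r0, hlt⟩
      set r := Nat.find hex with hr
      have hr1 : T^[r] z < 2 ^ (i - 1) := Nat.find_spec hex
      have hr2 : ∀ s < r, 2 ^ (i - 1) ≤ T^[s] z := fun s hs => not_lt.1 (Nat.find_min hex hs)
      have hrK : r ≤ Kf i := (Nat.find_min' hex hlt).trans hr0
      have hfp' : FP (i - 1) (m + r) x := by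
        refine ⟨?_, ?_⟩
        · intro j hj
          rcases Nat.lt_or_ge j m with h3 | h3
          · have := hfp.1 j h3; omega
          · obtain ⟨s, rfl⟩ := Nat.exists_eq_add_of_le h3
            have := hr2 s (by omega)
            rwa [hz, ← Function.iterate_add_apply, add_comm] at this
        · rw [add_comm, Function.iterate_add_apply]; exact hr1
      refine ⟨m + r, ?_, hfp', ?_⟩
      · by_contra hcon
        rw [not_le] at hcon
        have h3 := hfp'.1 mF hcon
        have h4 : 2 ^ l ≤ 2 ^ (i - 1) := Nat.pow_le_pow_right (by norm_num) (by omega)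
        omega
      · intro j hj
        rcases Nat.lt_or_ge j m with h3 | h3
        · exact hq j h3.le
        · obtain ⟨s, rfl⟩ := Nat.exists_eq_add_of_le h3
          have hsr : s ≤ r := by omega
          by_contra hcon
          rw [not_le] at hcon
          have e1 : T^[m + s] x = T^[s] z := by rw [add_comm, Function.iterate_add_apply]
          rw [e1] at hcon
          rcases Nat.lt_or_ge i s with h4 | h4
          · apply g3
            rw [mem_Wx]
            exact ⟨hz1, by omega, s, h4, hsr.trans hrK, fun s' hs' => hr2 s' (by omega), hcon⟩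
          · apply g2
            rw [mem_Big]
            exact ⟨hfp.2, by omega, s, h4, hcon⟩

end Pool.Agent.N905.EX
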