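import Pool.Agent.N905.EX.Wx

set_option autoImplicit false

/-! The laws of the descent in logarithmic time and of the excursions, with the exponent `0.06`. -/

namespace Pool.Agent.N905.EX

open Finset Filter Topology Pool.Agent.Helper894.Collatz Pool.Agent.H377R2 Pool.Agent.H319R2.Lln
open Pool.Agent.TH930.LT (card_family sum_levels to_real timeBad excBad exists_M)
open Pool.Agent.TH930.PS (lin_le_exp)

/-- the number of the points with a late large value -/
theorem card_Wx : ∃ C : ℝ, 0 < C ∧ ∀ V : ℝ, 0 < V → ∀ i : ℕ,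
    ((Wx Kq V i).card : ℝ) ≤ C * ((2 : ℝ) ^ i) ^ (94 / 100 : ℝ) + 2 * (4 ^ i / V) := by
  classical
  obtain ⟨C, hC, i0, h⟩ := card_As
  have hl2 : 0 < Real.log 2 := Real.log_pos (by norm_num)
  have hl2a := Real.log_two_gt_d9
  have e1 := lin_le_exp (a := 1 / 1000) (by norm_num) 1
  obtain ⟨i1, hi1⟩ := eventually_atTop.1 e1
  refine ⟨C + 2 ^ (i0 + i1), by positivity, ?_⟩
  intro V hV i
  have hi : (0 : ℝ) ≤ i := Nat.cast_nonneg i
  have h2i : (0 : ℝ) < 2 ^ i := by positivity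
  have hpow1 : (1 : ℝ) ≤ ((2 : ℝ) ^ i) ^ (94 / 100 : ℝ) :=
    Real.one_le_rpow (one_le_pow₀ (by norm_num)) (by norm_num)
  have hterm : 0 ≤ 2 * ((4 : ℝ) ^ i / V) := by positivity
  rcases lt_or_ge i (i0 + i1) with hsm | hbig
  · have h1 : ((Wx Kq V i).card : ℝ) ≤ 2 ^ i := by
      have : (Wx Kq V i).card ≤ 2 ^ i := by
        refine (card_filter_le _ _).trans ?_
        rw [card_range]
      exact_mod_cast this
    have h2 : (2 : ℝ) ^ i ≤ 2 ^ (i0 + i1) := pow_le_pow_right₀ (by norm_num) hsm.le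
    have h3 : (2 : ℝ) ^ (i0 + i1) * 1 ≤ (C + 2 ^ (i0 + i1)) * ((2 : ℝ) ^ i) ^ (94 / 100 : ℝ) :=
      mul_le_mul (by linarith) hpow1 (by norm_num) (by positivity)
    linarith
  rcases le_or_gt (V * rho ^ i) (2 ^ i) with hc | hc
  · have h1 : ((Wx Kq V i).card : ℝ) ≤ (stuck i i).card := by
      have hsub : Wx Kq V i ⊆ stuck i i := by
        intro z hz
        rw [mem_Wx] at hz
        obtain ⟨z1, z2, s, s1, s2, s3, -⟩ := hz
        by_contra hst
        have hi0 : 0 < i := by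
          rcases Nat.eq_zero_or_pos i with h0 | h0
          · subst h0
            unfold Kq at s2
            omega
          · exact h0
        have h5 := pass_next (le_refl i) z1 z2 hst hi0
        have h6 := s3 i s1
        omega
      exact_mod_cast card_le_card hsub
    have h2 := card_stuck i i le_rfl
    have h3 : (2 : ℝ) * 2 ^ i * rho ^ i ≤ 2 * (4 ^ i / V) := by
      have e : (4 : ℝ) ^ i = 2 ^ i * 2 ^ i := by rw [← mul_pow]; norm_num
      rw [mul_assoc]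
      apply mul_le_mul_of_nonneg_left _ (by norm_num)
      rw [le_div_iff₀ hV, e]
      calc (2 : ℝ) ^ i * rho ^ i * V = 2 ^ i * (V * rho ^ i) := by ring
        _ ≤ _ := mul_le_mul_of_nonneg_left hc h2i.le
    have h4 : 0 ≤ (C + 2 ^ (i0 + i1)) * ((2 : ℝ) ^ i) ^ (94 / 100 : ℝ) := by positivity
    linarith
  · have hsub : Wx Kq V i ⊆ (Ioc i (Kq i)).biUnion (fun s => As V i s) := by
      intro z hz
      rw [mem_Wx] at hz
      obtain ⟨z1, z2, s, s1, s2, s3, s4⟩ := hz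
      rw [mem_biUnion]
      exact ⟨s, mem_Ioc.2 ⟨s1, s2⟩, mem_As.2 ⟨z1, z2, s3, s4⟩⟩
    have h1 : ((Wx Kq V i).card : ℝ) ≤ ∑ s ∈ Ioc i (Kq i), ((As V i s).card : ℝ) := by
      exact_mod_cast (card_le_card hsub).trans card_biUnion_le
    have h2 : ∀ s ∈ Ioc i (Kq i), ((As V i s).card : ℝ) ≤ C * (2 : ℝ) ^ ((9384 / 10000 : ℝ) * i) := by
      intro s hs
      rw [mem_Ioc] at hs
      exact h i (by omega) s hs.1 hs.2 V hc
    have h3 : ((Ioc i (Kq i)).card : ℝ) ≤ 1 * ((i : ℝ) + 1) := by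
      have : (Ioc i (Kq i)).card ≤ i + 1 := by
        rw [Nat.card_Ioc]; unfold Kq; omega
      rw [one_mul]
      exact_mod_cast this
    have h4 := hi1 i (by omega)
    have h5 : ((Wx Kq V i).card : ℝ) ≤ Real.exp (1 / 1000 * i) * (C * (2 : ℝ) ^ ((9384 / 10000 : ℝ) * i)) := by
      refine (h1.trans (sum_le_card_nsmul _ _ _ h2)).trans ?_
      rw [nsmul_eq_mul]
      exact mul_le_mul_of_nonneg_right (h3.trans h4) (by positivity)
    have h6 : Real.exp (1 / 1000 * i) * (2 : ℝ) ^ ((9384 / 10000 : ℝ) * i) ≤ ((2 : ℝ) ^ i) ^ (94 / 100 : ℝ) := by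
      rw [Real.rpow_def_of_pos (by norm_num), Real.rpow_def_of_pos (by positivity), Real.log_pow,
        ← Real.exp_add]
      apply Real.exp_le_exp.2
      have : (i : ℝ) * (69 / 100) ≤ i * Real.log 2 := mul_le_mul_of_nonneg_left (by linarith) hi
      linarith
    calc ((Wx Kq V i).card : ℝ) ≤ Real.exp (1 / 1000 * i) * (C * (2 : ℝ) ^ ((9384 / 10000 : ℝ) * i)) := h5
      _ = C * (Real.exp (1 / 1000 * i) * (2 : ℝ) ^ ((9384 / 10000 : ℝ) * i)) := by ring
      _ ≤ C * ((2 : ℝ) ^ i) ^ (94 / 100 : ℝ) := mul_le_mul_of_nonneg_left h6 hC.le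
      _ ≤ (C + 2 ^ (i0 + i1)) * ((2 : ℝ) ^ i) ^ (94 / 100 : ℝ) := by
          apply mul_le_mul_of_nonneg_right _ (by positivity)
          linarith [pow_pos (show (0 : ℝ) < 2 by norm_num) (i0 + i1)]
      _ ≤ _ := by linarith

section
variable {B c : ℝ}

/-- the data for a level -/
lemma exists_I0' {a : ℝ} (ha : 0 < a) (hBa : 1 < B * a) : ∃ I₀ : ℕ, ∀ l : ℕ, I₀ ≤ l →
    2 * Real.log 2 ≤ a * l ∧ B * Real.log 2 ≤ (B * a - 1) * l ∧ 3 ≤ l := by
  obtain ⟨I₀, hI⟩ := Pool.Agent.TH930.LT.exists_I0 ha hBa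
  refine ⟨I₀ + 3, fun l hl => ?_⟩
  obtain ⟨h1, h2⟩ := hI l (by omega)
  exact ⟨h1, h2, by omega⟩

lemma Ps_lower {a : ℝ} (i : ℕ) : ∀ y ∈ Ps a i, 2 ^ i ≤ 2 * y := fun _ hy => (mem_Ps.1 hy).2.1

lemma falls_Ps {a : ℝ} (ha : 0 < a) {l : ℕ} (hl1 : 2 * Real.log 2 ≤ a * l) (hl3 : 3 ≤ l) :
    Falls Kq (Ps a) a l := by
  intro i z hi hz1 hz2 h
  have hlK : l ≤ Kq i := by
    have := Kq_ge (i := i) (by omega)
    omega
  refine ⟨hlK, ?_⟩
  have h1 : ¬ ∀ r ≤ Kq i, (z : ℝ) * Real.exp (-(a * Kq i)) ≤ (T^[r] z : ℕ) := by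
    intro hcon
    exact h (mem_Ps.2 ⟨hz1, hz2, hcon⟩)
  push Not at h1
  obtain ⟨r, hr, h2⟩ := h1
  refine ⟨r, hr, h2, ?_⟩
  have hlK' : (l : ℝ) ≤ Kq i := by exact_mod_cast hlK
  have h3 : Real.exp (-(a * Kq i)) ≤ 1 / 4 := by
    have e : (1 / 4 : ℝ) = Real.exp (-(2 * Real.log 2)) := by
      rw [Real.exp_neg, ← Real.log_rpow (by norm_num), Real.exp_log (by norm_num)]
      norm_num
    rw [e]
    apply Real.exp_le_exp.2
    have := mul_le_mul_of_nonneg_left hlK' ha.le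
    linarith
  have h4 : ((T^[r] z : ℕ) : ℝ) < z * (1 / 4) :=
    h2.trans_le (mul_le_mul_of_nonneg_left h3 (Nat.cast_nonneg _))
  have h5 : ((4 * T^[r] z : ℕ) : ℝ) < z := by push_cast; linarith
  exact_mod_cast h5

/-- the law of the descent in logarithmic time -/
theorem time_law {a C₁ : ℝ} (ha0 : 0 < a) (hC₁ : 0 < C₁) (hQ : ∀ i : ℕ, ((Ps a i).card : ℝ) ≤ C₁ * ((2 : ℝ) ^ i) ^ (1 - c))
    (hB : 0 < B) (hBa : 1 < B * a) (hc0 : 0 ≤ c) (hc1 : c ≤ 1) :
    ∃ C : ℝ, 0 < C ∧ ∀ x y : ℝ, 2 ≤ x → 1 ≤ y →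
      ({n : ℕ | 1 ≤ n ∧ (n : ℝ) ≤ x ∧ timeBad B y n}.ncard : ℝ) ≤ C * (Real.log x) ^ 3 * (x / y ^ c) := by
  classical
  obtain ⟨I₀, hI₀⟩ := exists_I0' ha0 hBa
  obtain ⟨C, hC, h⟩ := to_real (c := c) (B₀ := 2 * (B + 1)) (D := 4 * (B + 3) ^ 2 * (C₁ + 1)) hc0 hc1
    (by positivity) (by positivity) I₀ 3 (by norm_num) (fun y _ n => timeBad B y n)
    (fun y y' _ n hyy hb ⟨m, h1, h2⟩ => hb ⟨m, h1.trans hyy, h2⟩) (by
      intro k l hk hIl hkl V hV S hS
      obtain ⟨M, hM1, hM2, hM3⟩ := exists_M hB hk hkl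
      obtain ⟨hl1, hl2, hl3⟩ := hI₀ l hIl
      have hfall := falls_Ps ha0 hl1 hl3
      have h1 := card_family k l M (Ps a) Ps_lower hM2 S (by
        intro x hx
        obtain ⟨h1, h2, h3, h4⟩ := hS x hx
        refine ⟨h1, h2, ?_⟩
        by_contra hcon
        push Not at hcon
        apply h4
        obtain ⟨m, g1, g2⟩ := time_start ha0 hfall h1 h2 hB hl2 hBa.le hM1
          (fun i m k1 k2 k3 k4 => hcon i m k1 k2 k3 k4)
        refine ⟨m, ?_, g2⟩
        exact_mod_cast g1.le)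
      have hkR : (1 : ℝ) ≤ k := by exact_mod_cast hk
      have hk3 : (0 : ℝ) < k + 3 := by linarith
      have h2 := sum_levels (k := k) (l := l) (M := M) (C := C₁) (c := c) (V := (k + 3) * V) hC₁.le hc0
        (by positivity) (fun i => ((Ps a i).card : ℝ)) (by
          intro i hi _
          have h3 := hQ i
          have h4 : 0 ≤ ((i : ℝ) + 3) * (4 ^ i / ((k + 3) * V)) := by positivity
          linarith)
      have e : ((k : ℝ) + 3) * (4 ^ k / ((k + 3) * V)) = 4 ^ k / V := by field_simp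
      rw [e] at h2
      refine (h1.trans h2).trans ?_
      set X : ℝ := 2 ^ k * ((2 : ℝ) ^ l) ^ (-c) with hX
      set Y : ℝ := 4 ^ k / V with hY
      have hX0 : 0 ≤ X := by positivity
      have hY0 : 0 ≤ Y := by positivity
      calc (k : ℝ) * (4 * (M + 2) ^ 2) * (C₁ * X + Y)
          ≤ k * (4 * ((B + 3) * k) ^ 2) * ((C₁ + 1) * (X + Y)) := by
            apply mul_le_mul _ _ (by positivity) (by positivity)
            · apply mul_le_mul_of_nonneg_left _ (by positivity)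
              apply mul_le_mul_of_nonneg_left _ (by norm_num)
              exact pow_le_pow_left₀ (by positivity) hM3 2
            · nlinarith
        _ = 4 * (B + 3) ^ 2 * (C₁ + 1) * (k : ℝ) ^ 3 * (X + Y) := by ring)
  refine ⟨2 * C, by positivity, ?_⟩
  intro x y hx hy
  have hx0 : 0 < x := by linarith
  have hyc1 : 1 ≤ y ^ c := Real.one_le_rpow hy hc0
  have hV : x ≤ x ^ 2 * y ^ c := by nlinarith
  have h1 := h x y (x ^ 2 * y ^ c) hx hy hV
  refine h1.trans ?_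
  have e : x ^ 2 / (x ^ 2 * y ^ c) = 1 / y ^ c := by field_simp
  rw [e]
  have hL : 0 ≤ Real.log x := Real.log_nonneg (by linarith)
  have h2 : 1 / y ^ c ≤ x / y ^ c := div_le_div_of_nonneg_right (by linarith) (by positivity)
  calc C * Real.log x ^ 3 * (x / y ^ c + 1 / y ^ c) ≤ C * Real.log x ^ 3 * (x / y ^ c + x / y ^ c) := by
        apply mul_le_mul_of_nonneg_left _ (by positivity)
        linarith
    _ = _ := by ring

/-- the law of the excursions, with the time -/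
theorem exc_law {a C₁ C₂ : ℝ} (ha0 : 0 < a) (hC₁ : 0 < C₁) (hC₂ : 0 < C₂)
    (hQ : ∀ i : ℕ, ((Ps a i).card : ℝ) ≤ C₁ * ((2 : ℝ) ^ i) ^ (1 - c))
    (hWx : ∀ V : ℝ, 0 < V → ∀ i : ℕ, ((Wx Kq V i).card : ℝ) ≤ C₂ * ((2 : ℝ) ^ i) ^ (1 - c) + 2 * (4 ^ i / V))
    (hB : 0 < B) (hBa : 1 < B * a) (hc0 : 0 ≤ c) (hc1 : c ≤ 1) :
    ∃ C : ℝ, 0 < C ∧ ∀ x y V : ℝ, 2 ≤ x → 1 ≤ y → x ≤ V →
      ({n : ℕ | 1 ≤ n ∧ (n : ℝ) ≤ x ∧ excBad B y V n}.ncard : ℝ) ≤
        C * (Real.log x) ^ 4 * (x / y ^ c + x ^ 2 / V) := by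
  classical
  obtain ⟨I₀, hI₀⟩ := exists_I0' ha0 hBa
  refine to_real (c := c) (B₀ := 2 * (B + 1)) (D := 4 * (B + 3) ^ 2 * (C₁ + C₂ + 5)) hc0 (by linarith)
    (by positivity) (by positivity) I₀ 4 (by norm_num) (fun y V n => excBad B y V n)
    (fun y y' V n hyy hb ⟨m, h1, h2⟩ => hb ⟨m, h1.trans hyy, h2⟩) ?_
  intro k l hk hIl hkl V hV S hS
  obtain ⟨M, hM1, hM2, hM3⟩ := exists_M hB hk hkl
  obtain ⟨hl1, hl2, hl3⟩ := hI₀ l hIl
  have hfall := falls_Ps ha0 hl1 hl3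
  have h1 := card_family k l M (fun i => Ps a i ∪ (Big V i ∪ Wx Kq V i)) (by
      intro i y hy
      rw [mem_union, mem_union] at hy
      rcases hy with hy | hy | hy
      · exact (mem_Ps.1 hy).2.1
      · exact (mem_Big.1 hy).2.1
      · exact (mem_Wx.1 hy).2.1) hM2 S (by
    intro x hx
    obtain ⟨h1, h2, h3, h4⟩ := hS x hx
    refine ⟨h1, h2, ?_⟩
    by_contra hcon
    push Not at hcon
    have hcon' : ∀ i m, l < i → i ≤ k → m ≤ M → FP i m x →
        T^[m] x ∉ Ps a i ∧ T^[m] x ∉ Big V i ∧ T^[m] x ∉ Wx Kq V i := by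
      intro i m k1 k2 k3 k4
      have h5 := hcon i m k1 k2 k3 k4
      rw [mem_union, mem_union, not_or, not_or] at h5
      exact h5
    apply h4
    obtain ⟨m, g1, g2⟩ := time_start ha0 hfall h1 h2 hB hl2 hBa.le hM1
      (fun i m k1 k2 k3 k4 => (hcon' i m k1 k2 k3 k4).1)
    -- the first passage
    have hex : ∃ m, T^[m] x < 2 ^ l := ⟨m, g1⟩
    set mF := Nat.find hex with hmF
    have hF1 : T^[mF] x < 2 ^ l := Nat.find_spec hex
    have hF2 : mF ≤ m := Nat.find_min' hex g1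
    have hF3 : ∀ r < mF, 2 ^ l ≤ T^[r] x := fun r hr => not_lt.1 (Nat.find_min hex hr)
    have hlw : 0 ≤ Real.log ((T^[m] x : ℕ) : ℝ) := Real.log_natCast_nonneg _
    have hmB : (mF : ℝ) ≤ B * Real.log x := by
      have h5 : (mF : ℝ) ≤ m := by exact_mod_cast hF2
      refine h5.trans (g2.trans ?_)
      exact mul_le_mul_of_nonneg_left (by linarith) hB.le
    have hmM : mF ≤ M := by
      have h5 : (mF : ℝ) ≤ M := by
        refine hmB.trans (le_trans ?_ hM1)
        apply mul_le_mul_of_nonneg_left _ hB.le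
        rw [← Real.log_pow]
        exact Real.log_le_log (by exact_mod_cast h1) (by exact_mod_cast h2.le)
      exact_mod_cast h5
    refine ⟨mF, by exact_mod_cast hF1.le, hmB, ?_⟩
    rcases Nat.lt_or_ge k l with hkl' | hkl'
    · have h0 : mF = 0 := by
        rcases Nat.eq_zero_or_pos mF with h5 | h5
        · exact h5
        · have h6 := hF3 0 h5
          simp only [Function.iterate_zero, id] at h6
          have h7 : 2 ^ k ≤ 2 ^ l := Nat.pow_le_pow_right (by norm_num) hkl'.le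
          omega
      intro j hj
      have : j = 0 := by omega
      subst this
      simpa using h3
    · obtain ⟨m2, k1, k2, k3⟩ := exc_chain hfall h1 h2 h3 hF1 hmM hcon' (k - l) (by omega)
      have e : k - (k - l) = l := by omega
      rw [e] at k2
      have h5 : mF ≤ m2 := Nat.find_min' hex k2.2
      intro j hj
      exact k3 j (hj.trans h5))
  have hkR : (1 : ℝ) ≤ k := by exact_mod_cast hk
  have h2 := sum_levels (k := k) (l := l) (M := M) (C := C₁ + C₂) (c := c) (V := V) (by linarith) hc0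
    hV (fun i => (((Ps a i ∪ (Big V i ∪ Wx Kq V i)).card : ℕ) : ℝ)) (by
      intro i hi _
      have h3 := hQ i
      have h4 := card_Big V hV i
      have h5 := hWx V hV i
      have h7 : (((Ps a i ∪ (Big V i ∪ Wx Kq V i)).card : ℕ) : ℝ) ≤
          (Ps a i).card + ((Big V i).card + (Wx Kq V i).card) := by
        have h8 := (card_union_le (Ps a i) (Big V i ∪ Wx Kq V i)).trans
          (Nat.add_le_add_left (card_union_le (Big V i) (Wx Kq V i)) _)
        exact_mod_cast h8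
      have e : ((i : ℝ) + 1) * 4 ^ i / V = (i + 1) * (4 ^ i / V) := by ring
      rw [e] at h4
      linarith)
  refine (h1.trans h2).trans ?_
  set X : ℝ := 2 ^ k * ((2 : ℝ) ^ l) ^ (-c) with hX
  set Y : ℝ := 4 ^ k / V with hY
  have hX0 : 0 ≤ X := by positivity
  have hY0 : 0 ≤ Y := by positivity
  calc (k : ℝ) * (4 * (M + 2) ^ 2) * ((C₁ + C₂) * X + (k + 3) * Y)
      ≤ k * (4 * ((B + 3) * k) ^ 2) * ((C₁ + C₂ + 5) * k * (X + Y)) := by
        apply mul_le_mul _ _ (by positivity) (by positivity)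
        · apply mul_le_mul_of_nonneg_left _ (by positivity)
          apply mul_le_mul_of_nonneg_left _ (by norm_num)
          exact pow_le_pow_left₀ (by positivity) hM3 2
        · have h5 : (C₁ + C₂) * X ≤ (C₁ + C₂ + 5) * k * X := by
            apply mul_le_mul_of_nonneg_right _ hX0
            nlinarith
          have h6 : ((k : ℝ) + 3) * Y ≤ (C₁ + C₂ + 5) * k * Y := by
            apply mul_le_mul_of_nonneg_right _ hY0
            nlinarith
          linarith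
    _ = 4 * (B + 3) ^ 2 * (C₁ + C₂ + 5) * (k : ℝ) ^ 4 * (X + Y) := by ring

end

end Pool.Agent.N905.EX
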