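import Pool.Agent.N905.EX.Chain
import Pool.Agent.TH930.PS.Stop
import Pool.Agent.TH930.HW.Nat

set_option autoImplicit false

/-! The exceptional points of a level. -/

namespace Pool.Agent.N905.EX

open Finset Filter Topology Pool.Agent.Helper894.Collatz Pool.Agent.H377R2 Pool.Agent.H319R2.Lln
open Pool.Agent.TH930.EBQ (ones wd)
open Pool.Agent.TH930.PS (stay_mult' lin_le_exp)

lemma T_cast' (j n : ℕ) : (Pool.Agent.TH930.EBQ.T 1)^[j] (n : ℤ) = ((T^[j] n : ℕ) : ℤ) :=
  Pool.Agent.TH930.HW.T_iter_cast j n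

/-- the multiplier along an orbit above `Y` -/
lemma stay_nat {n z : ℕ} {Y : ℝ} (hY : 0 < Y) (hn : 4 * (n : ℝ) ≤ Y)
    (hst : ∀ j ≤ n, Y ≤ ((T^[j] z : ℕ) : ℝ)) :
    (2 : ℝ) ^ n * ((T^[n] z : ℕ) : ℝ) ≤ 2 * ((3 : ℝ) ^ ones (wd 1 n z) * z) := by
  have h := stay_mult' (k := 1) odd_one (n := n) (Y := Y) hY (by simpa using hn) (y := (z : ℤ)) (by
    intro j hj
    have e : (Pool.Agent.H499R2.ND.Td 1)^[j] (z : ℤ) = ((T^[j] z : ℕ) : ℤ) := T_cast' j z
    rw [e, Int.cast_natCast, abs_of_nonneg (Nat.cast_nonneg _)]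
    exact hst j hj)
  have e : (Pool.Agent.H499R2.ND.Td 1)^[n] (z : ℤ) = ((T^[n] z : ℕ) : ℤ) := T_cast' n z
  rw [e, Int.cast_natCast, abs_of_nonneg (Nat.cast_nonneg _), Int.cast_natCast,
    abs_of_nonneg (Nat.cast_nonneg _)] at h
  exact h

/-- the time -/
def Kq (i : ℕ) : ℕ := 4 * (i / 3)

lemma Kq_ge {i : ℕ} (hi : 3 ≤ i) : i - 1 ≤ Kq i := by unfold Kq; omega

lemma Kq_le (i : ℕ) : 3 * Kq i ≤ 4 * i := by unfold Kq; omega

open scoped Classical in
/-- the points of level `i` which do not fall by `exp (-a K)` -/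
noncomputable def Ps (a : ℝ) (i : ℕ) : Finset ℕ :=
  (range (2 ^ i)).filter fun z => 2 ^ i ≤ 2 * z ∧
    ∀ r ≤ Kq i, (z : ℝ) * Real.exp (-(a * Kq i)) ≤ (T^[r] z : ℕ)

lemma mem_Ps {a : ℝ} {i z : ℕ} : z ∈ Ps a i ↔ z < 2 ^ i ∧ 2 ^ i ≤ 2 * z ∧
    ∀ r ≤ Kq i, (z : ℝ) * Real.exp (-(a * Kq i)) ≤ (T^[r] z : ℕ) := by
  classical
  unfold Ps
  rw [mem_filter, mem_range]

/-- the number of these points -/
theorem card_Ps : ∃ a C : ℝ, 0 < a ∧ a ≤ 1 / 16 ∧ 0 < C ∧ ∀ i : ℕ,
    ((Ps a i).card : ℝ) ≤ C * ((2 : ℝ) ^ i) ^ (94 / 100 : ℝ) := by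
  classical
  obtain ⟨C, μ, hC, hμ0, hμ1, hmain⟩ := Pool.Agent.N905.FM.count_height
  have hl2 : 0 < Real.log 2 := Real.log_pos (by norm_num)
  have hl2a := Real.log_two_gt_d9
  have hl2b := Real.log_two_lt_d9
  set a : ℝ := μ / 16 with ha
  have ha0 : 0 < a := by positivity
  have ha16 : a ≤ 1 / 16 := by rw [ha]; linarith
  have e1 := lin_le_exp (a := 1 / 16) (by norm_num) 16
  have e2 : ∀ᶠ N : ℕ in atTop, 4 / μ ≤ (N : ℝ) :=
    tendsto_natCast_atTop_atTop.eventually_ge_atTop _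
  obtain ⟨i0, hi0⟩ := eventually_atTop.1 (e1.and e2)
  refine ⟨a, max C (2 ^ i0), ha0, ha16, lt_max_of_lt_left hC, ?_⟩
  intro i
  have hi : (0 : ℝ) ≤ i := Nat.cast_nonneg i
  have hpow1 : (1 : ℝ) ≤ ((2 : ℝ) ^ i) ^ (94 / 100 : ℝ) :=
    Real.one_le_rpow (one_le_pow₀ (by norm_num)) (by norm_num)
  rcases lt_or_ge i i0 with hsm | hbig
  · have h1 : ((Ps a i).card : ℝ) ≤ 2 ^ i := by
      have : (Ps a i).card ≤ 2 ^ i := by
        refine (card_filter_le _ _).trans ?_
        rw [card_range]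
      exact_mod_cast this
    have h2 : (2 : ℝ) ^ i ≤ 2 ^ i0 := pow_le_pow_right₀ (by norm_num) hsm.le
    calc ((Ps a i).card : ℝ) ≤ 2 ^ i0 * 1 := by rw [mul_one]; exact h1.trans h2
      _ ≤ max C (2 ^ i0) * ((2 : ℝ) ^ i) ^ (94 / 100 : ℝ) :=
          mul_le_mul (le_max_right _ _) hpow1 (by norm_num) (by positivity)
  · obtain ⟨h1, h2⟩ := hi0 i hbig
    have hμi : 4 ≤ μ * i := by rw [div_le_iff₀ hμ0] at h2; linarith
    set K := Kq i with hK
    have hKi : (K : ℝ) ≤ 4 / 3 * i := by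
      have : 3 * (K : ℝ) ≤ 4 * i := by exact_mod_cast Kq_le i
      linarith
    have hK0 : (0 : ℝ) ≤ K := Nat.cast_nonneg K
    have haK : a * K ≤ μ / 12 * i := by
      calc a * K ≤ a * (4 / 3 * i) := mul_le_mul_of_nonneg_left hKi ha0.le
        _ = _ := by rw [ha]; ring
    set q : ℕ := ⌈a * K / Real.log 2⌉₊ + 1 with hq
    have hq1 : a * K / Real.log 2 + 1 ≤ q := by
      rw [hq]; push_cast
      have := Nat.le_ceil (a * K / Real.log 2)
      linarith
    have hq2 : (q : ℝ) ≤ a * K / Real.log 2 + 2 := by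
      rw [hq]; push_cast
      have := Nat.ceil_lt_add_one (show 0 ≤ a * K / Real.log 2 by positivity)
      linarith
    have hqe : (2 : ℝ) ^ q = Real.exp (q * Real.log 2) := by
      rw [Real.exp_nat_mul, Real.exp_log (by norm_num)]
    have hQ1 : 2 * Real.exp (a * K) ≤ (2 : ℝ) ^ q := by
      have e : 2 * Real.exp (a * K) = Real.exp ((a * K / Real.log 2 + 1) * Real.log 2) := by
        rw [add_mul, one_mul, Real.exp_add, Real.exp_log (by norm_num), div_mul_cancel₀ _ hl2.ne']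
        ring
      rw [e, hqe]
      exact Real.exp_le_exp.2 (mul_le_mul_of_nonneg_right hq1 hl2.le)
    have hQ2 : (2 : ℝ) ^ q ≤ Real.exp (μ * i) := by
      rw [hqe]
      apply Real.exp_le_exp.2
      have e3 : (q : ℝ) * Real.log 2 ≤ (a * K / Real.log 2 + 2) * Real.log 2 :=
        mul_le_mul_of_nonneg_right hq2 hl2.le
      rw [add_mul, div_mul_cancel₀ _ hl2.ne'] at e3
      linarith
    have hkey : ∀ z ∈ Ps a i, ∀ n ≤ K, (2 : ℝ) ^ n ≤ 2 ^ q * 3 ^ ones (wd 1 n z) := by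
      intro z hz n hn
      rw [mem_Ps] at hz
      obtain ⟨z1, z2, z3⟩ := hz
      have hzr : (2 : ℝ) ^ i ≤ 2 * z := by exact_mod_cast z2
      have hz0 : (0 : ℝ) < z := by
        have : (0 : ℝ) < 2 ^ i := by positivity
        linarith
      set Y : ℝ := z * Real.exp (-(a * K)) with hY
      have hY0 : 0 < Y := by positivity
      have hYn : 4 * (n : ℝ) ≤ Y := by
        have e3 : (n : ℝ) ≤ K := by exact_mod_cast hn
        have e4 : 4 * (n : ℝ) ≤ 16 * ((i : ℝ) + 1) * (1 / 2) := by linarith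
        have e5 : (2 : ℝ) ^ i = Real.exp (i * Real.log 2) := by
          rw [Real.exp_nat_mul, Real.exp_log (by norm_num)]
        have e6 : Real.exp (1 / 16 * i) * (1 / 2) ≤ Y := by
          calc Real.exp (1 / 16 * i) * (1 / 2)
              ≤ (Real.exp (i * Real.log 2) * Real.exp (-(a * K))) * (1 / 2) := by
                apply mul_le_mul_of_nonneg_right _ (by norm_num)
                rw [← Real.exp_add]
                apply Real.exp_le_exp.2
                have e7 : (i : ℝ) * (69 / 100) ≤ i * Real.log 2 :=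
                  mul_le_mul_of_nonneg_left (by linarith) hi
                have e8 : μ / 12 * (i : ℝ) ≤ 1 / 12 * i := mul_le_mul_of_nonneg_right (by linarith) hi
                linarith
            _ = (2 ^ i / 2) * Real.exp (-(a * K)) := by rw [e5]; ring
            _ ≤ z * Real.exp (-(a * K)) := by
                apply mul_le_mul_of_nonneg_right _ (Real.exp_pos _).le
                linarith
        linarith
      have h5 := stay_nat hY0 hYn (fun j hj => z3 j (hj.trans hn))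
      have h6 := z3 n hn
      have h7 : (2 : ℝ) ^ n * z ≤ (2 ^ q * 3 ^ ones (wd 1 n z)) * z := by
        have e3 : (z : ℝ) = (z * Real.exp (-(a * K))) * Real.exp (a * K) := by
          rw [mul_assoc, ← Real.exp_add]; simp
        calc (2 : ℝ) ^ n * z = 2 ^ n * ((z * Real.exp (-(a * K))) * Real.exp (a * K)) := by rw [← e3]
          _ ≤ 2 ^ n * (((T^[n] z : ℕ) : ℝ) * Real.exp (a * K)) := by gcongr
          _ = (2 ^ n * ((T^[n] z : ℕ) : ℝ)) * Real.exp (a * K) := by ring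
          _ ≤ (2 * ((3 : ℝ) ^ ones (wd 1 n z) * z)) * Real.exp (a * K) := by gcongr
          _ = (2 * Real.exp (a * K)) * (3 ^ ones (wd 1 n z) * z) := by ring
          _ ≤ 2 ^ q * (3 ^ ones (wd 1 n z) * z) := by gcongr
          _ = _ := by ring
      exact le_of_mul_le_mul_right h7 hz0
    set B : Finset ℤ := (Ps a i).image (fun z : ℕ => (z : ℤ)) with hB
    have hBc : B.card = (Ps a i).card := by
      rw [hB, card_image_of_injective _ Nat.cast_injective]
    have h3 := hmain 1 odd_one i (2 ^ q) Nat.one_le_two_pow (by push_cast; exact hQ2) (by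
      rw [Int.cast_one, abs_one]
      exact Real.one_le_exp (by positivity)) 1 le_rfl (one_le_pow₀ (by norm_num)) 0 B (by
      intro x hx
      rw [hB, mem_image] at hx
      obtain ⟨z, hz, rfl⟩ := hx
      have hz1 := (mem_Ps.1 hz).1
      refine ⟨?_, ?_, ?_⟩
      · rw [sub_zero, abs_of_nonneg (Int.natCast_nonneg z)]
        exact_mod_cast hz1.le
      · have := hkey z hz (i / 3) (by rw [hK]; unfold Kq; omega)
        exact_mod_cast this
      · have := hkey z hz (4 * (i / 3)) (by rw [hK]; unfold Kq; omega)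
        rw [one_mul]
        push_cast
        exact this)
    rw [Real.one_rpow, div_one, hBc] at h3
    have h4 : Real.exp (i * (Real.log 2 * Pool.Agent.N905.FM.η0)) ≤ ((2 : ℝ) ^ i) ^ (94 / 100 : ℝ) := by
      rw [Real.rpow_def_of_pos (by positivity), Real.log_pow]
      apply Real.exp_le_exp.2
      have := eta0_lt
      have e3 : 0 ≤ (i : ℝ) * Real.log 2 := by positivity
      nlinarith
    calc ((Ps a i).card : ℝ) ≤ C * Real.exp (i * (Real.log 2 * Pool.Agent.N905.FM.η0)) := h3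
      _ ≤ max C (2 ^ i0) * ((2 : ℝ) ^ i) ^ (94 / 100 : ℝ) :=
          mul_le_mul (le_max_left _ _) h4 (Real.exp_pos _).le (by positivity)

end Pool.Agent.N905.EX
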