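import Pool.Agent.TH235.UB.Mini
import Pool.Agent.N905.EX.Uni

/-! The elements of least absolute value of the orbits of the `3x+k` maps, uniformly in `k`, with an
explicit exponent. -/

set_option autoImplicit false

namespace Pool.Agent.N905.EX

open Finset Filter Topology Pool.Agent.H499R2.ND Pool.Agent.H828R3.GP Pool.Agent.TH235.UB
open Pool.Agent.H319R3.GC (Adm Tm PP)
open Pool.Agent.W36 (kr)

/-- THE ELEMENTS OF LEAST ABSOLUTE VALUE, uniformly in `k`: at most `A |k| ^ (1-η) X ^ η` integers of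
`[-X, X]` have a `3x+k` orbit that never falls below its starting point, `η = 0.94`. -/
theorem minU_ex : ∃ A : ℝ, 0 < A ∧ ∀ k : ℤ, Odd k → ∀ X : ℝ, 1 ≤ X →
    ∀ F : Finset ℤ, (∀ x ∈ F, |(x : ℝ)| ≤ X ∧ ∀ n : ℕ, |(x : ℝ)| ≤ |(((Td k)^[n] x : ℤ) : ℝ)|) →
    (F.card : ℝ) ≤ A * |(k : ℝ)| ^ (6 / 100 : ℝ) * X ^ (94 / 100 : ℝ) := by
  classical
  obtain ⟨A, hA, hSt⟩ := card_SjU_ex
  obtain ⟨τ, hτ⟩ : ∃ τ : ℝ, τ = 1 / 3 := ⟨_, rfl⟩
  rw [← hτ] at hSt
  obtain ⟨η, hηd⟩ : ∃ η : ℝ, η = 94 / 100 := ⟨_, rfl⟩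
  have hηe : η0 ≤ η := by rw [hηd]; exact eta0_lt.le
  rw [show (6 / 100 : ℝ) = 1 - η by rw [hηd]; norm_num, show (94 / 100 : ℝ) = η from hηd.symm]
  have hη2 : 1 / 2 ≤ η := by rw [hηd]; norm_num
  have hη1 : η < 1 := by rw [hηd]; norm_num
  have hηp : 0 < η := by linarith
  have hη'1 : 0 < 1 - η := by linarith
  set q : ℝ := (2 : ℝ) ^ η with hq
  have hq1 : 1 < q := Real.one_lt_rpow (by norm_num) hηp
  have hq2 : q ≤ 2 := by
    calc q ≤ (2 : ℝ) ^ (1 : ℝ) := Real.rpow_le_rpow_of_exponent_le (by norm_num) (by linarith)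
      _ = 2 := Real.rpow_one 2
  have hq0 : 0 < q := by linarith
  have hSt' : ∀ k : ℤ, Odd k → ∀ i : ℕ, 1 ≤ i →
      ((SjU k 2 m3 (r3 1) τ i).card : ℝ) ≤ |(k : ℝ)| * (A * q ^ i) := by
    intro k hk i hi
    refine (hSt k hk i hi).trans ?_
    apply mul_le_mul_of_nonneg_left _ (abs_nonneg _)
    apply mul_le_mul_of_nonneg_left _ hA
    apply pow_le_pow_left₀ (by positivity)
    push_cast
    exact Real.rpow_le_rpow_of_exponent_le (by norm_num) hηe
  refine ⟨3 + A * (q ^ 2 / (q - 1)), by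
    have : 0 ≤ A * (q ^ 2 / (q - 1)) := mul_nonneg hA (div_nonneg (by positivity) (by linarith))
    linarith, ?_⟩
  intro k hk X hX F hF
  have hk0 : k ≠ 0 := by rintro rfl; simp at hk
  have hkp : 0 < |(k : ℝ)| := abs_pos.2 (by exact_mod_cast hk0)
  have hk1 : (1 : ℝ) ≤ |(k : ℝ)| := by exact_mod_cast Int.one_le_abs hk0
  have hX0 : 0 < X := by linarith
  set D : ℝ := A * (q ^ 2 / (q - 1)) with hD
  have hD0 : 0 ≤ D := mul_nonneg hA (div_nonneg (by positivity) (by linarith))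
  rcases lt_or_ge X |(k : ℝ)| with hsm | hbig
  · have h1 := card_abs_le hX F (fun x hx => (hF x hx).1)
    have h2 : X ^ (1 - η) ≤ |(k : ℝ)| ^ (1 - η) := Real.rpow_le_rpow hX0.le hsm.le hη'1.le
    have h3 : X = X ^ (1 - η) * X ^ η := by
      rw [← Real.rpow_add hX0, sub_add_cancel, Real.rpow_one]
    have h4 : 0 ≤ X ^ η := Real.rpow_nonneg hX0.le _
    have h5 : X ≤ |(k : ℝ)| ^ (1 - η) * X ^ η := by
      calc X = X ^ (1 - η) * X ^ η := h3
        _ ≤ _ := mul_le_mul_of_nonneg_right h2 h4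
    have h6 : 0 ≤ D * (|(k : ℝ)| ^ (1 - η) * X ^ η) := by positivity
    calc (F.card : ℝ) ≤ 3 * X := h1
      _ ≤ 3 * (|(k : ℝ)| ^ (1 - η) * X ^ η) + D * (|(k : ℝ)| ^ (1 - η) * X ^ η) := by linarith
      _ = _ := by ring
  · obtain ⟨I, hI1, hI2⟩ := exists_nat_pow_near (x := X / |(k : ℝ)|) (y := (2 : ℝ))
      (by rw [le_div_iff₀ hkp]; linarith) (by norm_num)
    rw [le_div_iff₀ hkp] at hI1
    rw [div_lt_iff₀ hkp] at hI2
    -- the decomposition
    set F0 := F.filter (fun x : ℤ => |(x : ℝ)| < |(k : ℝ)|) with hF0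
    have hsub : F ⊆ F0 ∪ (range (I + 1)).biUnion (fun i => SjU k 2 m3 (r3 1) τ (i + 1)) := by
      intro x hx
      obtain ⟨hx1, hx2⟩ := hF x hx
      rw [mem_union]
      rcases lt_or_ge |(x : ℝ)| |(k : ℝ)| with h1 | h1
      · left; rw [hF0, mem_filter]; exact ⟨hx, h1⟩
      · right
        obtain ⟨i, hi1, hi2⟩ := exists_nat_pow_near (x := |(x : ℝ)| / |(k : ℝ)|) (y := (2 : ℝ))
          (by rw [le_div_iff₀ hkp]; linarith) (by norm_num)
        rw [le_div_iff₀ hkp] at hi1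
        rw [div_lt_iff₀ hkp] at hi2
        rw [mem_biUnion]
        refine ⟨i, ?_, ?_⟩
        · rw [mem_range]
          have h2 : (2 : ℝ) ^ i * |(k : ℝ)| < 2 ^ (I + 1) * |(k : ℝ)| := by linarith
          have h3 : (2 : ℝ) ^ i < 2 ^ (I + 1) := lt_of_mul_lt_mul_right h2 hkp.le
          exact (pow_lt_pow_iff_right₀ (by norm_num)).1 h3
        · unfold SjU
          rw [mem_filter]
          refine ⟨Pool.Agent.W36.mem_Icc_of_absU (by push_cast; linarith), by push_cast; linarith, ?_⟩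
          intro j _
          rw [kr_r3, Tm3]
          have h4 := hx2 j
          push_cast
          linarith
    have h1 := (card_le_card hsub).trans (card_union_le _ _)
    have h2 : (F0.card : ℝ) ≤ 3 * |(k : ℝ)| := by
      apply card_abs_le hk1
      intro x hx
      rw [hF0, mem_filter] at hx
      exact hx.2.le
    have h3 : (((range (I + 1)).biUnion (fun i => SjU k 2 m3 (r3 1) τ (i + 1))).card : ℝ) ≤
        |(k : ℝ)| * (D * q ^ I) := by
      have e1 : (((range (I + 1)).biUnion (fun i => SjU k 2 m3 (r3 1) τ (i + 1))).card : ℝ) ≤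
          ∑ i ∈ range (I + 1), ((SjU k 2 m3 (r3 1) τ (i + 1)).card : ℝ) := by
        exact_mod_cast card_biUnion_le
      have e2 : ∑ i ∈ range (I + 1), ((SjU k 2 m3 (r3 1) τ (i + 1)).card : ℝ) ≤
          ∑ i ∈ range (I + 1), |(k : ℝ)| * (A * q * q ^ i) := by
        apply sum_le_sum
        intro i _
        refine (hSt' k hk (i + 1) (by omega)).trans (le_of_eq ?_)
        rw [pow_succ]; ring
      have e3 : ∑ i ∈ range (I + 1), |(k : ℝ)| * (A * q * q ^ i) =
          |(k : ℝ)| * (A * q * ((q ^ (I + 1) - 1) / (q - 1))) := by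
        rw [← mul_sum, ← mul_sum, geom_sum_eq hq1.ne']
      have e4 : A * q * ((q ^ (I + 1) - 1) / (q - 1)) ≤ D * q ^ I := by
        rw [hD]
        have hqm : 0 < q - 1 := by linarith
        have e5 : A * q * ((q ^ (I + 1) - 1) / (q - 1)) ≤ A * q * (q ^ (I + 1) / (q - 1)) := by
          apply mul_le_mul_of_nonneg_left _ (by positivity)
          apply div_le_div_of_nonneg_right _ hqm.le
          linarith
        refine e5.trans (le_of_eq ?_)
        rw [pow_succ]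
        field_simp
      refine (e1.trans e2).trans ?_
      rw [e3]
      exact mul_le_mul_of_nonneg_left e4 hkp.le
    have h4 : q ^ I ≤ (X / |(k : ℝ)|) ^ η := by
      rw [hq, ← Real.rpow_natCast, ← Real.rpow_mul (by norm_num), mul_comm, Real.rpow_mul (by norm_num),
        Real.rpow_natCast]
      apply Real.rpow_le_rpow (by positivity) _ hηp.le
      rw [le_div_iff₀ hkp]; exact hI1
    have h5 : |(k : ℝ)| * (X / |(k : ℝ)|) ^ η = |(k : ℝ)| ^ (1 - η) * X ^ η := by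
      rw [Real.div_rpow hX0.le hkp.le, Real.rpow_sub hkp, Real.rpow_one]
      field_simp
    have h6 : 1 ≤ (X / |(k : ℝ)|) ^ η := Real.one_le_rpow (by rw [le_div_iff₀ hkp]; linarith) hηp.le
    have h7 : (F.card : ℝ) ≤ 3 * |(k : ℝ)| + |(k : ℝ)| * (D * q ^ I) := by
      have : (F.card : ℝ) ≤ (F0.card : ℝ) +
          (((range (I + 1)).biUnion (fun i => SjU k 2 m3 (r3 1) τ (i + 1))).card : ℝ) := by
        exact_mod_cast h1
      linarith
    calc (F.card : ℝ) ≤ 3 * |(k : ℝ)| + |(k : ℝ)| * (D * q ^ I) := h7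
      _ ≤ 3 * (|(k : ℝ)| * (X / |(k : ℝ)|) ^ η) + D * (|(k : ℝ)| * (X / |(k : ℝ)|) ^ η) := by
          have e1 : |(k : ℝ)| * 1 ≤ |(k : ℝ)| * (X / |(k : ℝ)|) ^ η :=
            mul_le_mul_of_nonneg_left h6 hkp.le
          have e2 : D * (|(k : ℝ)| * q ^ I) ≤ D * (|(k : ℝ)| * (X / |(k : ℝ)|) ^ η) :=
            mul_le_mul_of_nonneg_left (mul_le_mul_of_nonneg_left h4 hkp.le) hD0
          have e3 : |(k : ℝ)| * (D * q ^ I) = D * (|(k : ℝ)| * q ^ I) := by ring
          rw [e3]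
          linarith
      _ = _ := by rw [h5]; ring

end Pool.Agent.N905.EX
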