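import Pool.Agent.N905.EX.Loc

/-! Sums of negative powers over sparse sets of integers. -/

set_option autoImplicit false

namespace Pool.Agent.N905.EX

open Finset

theorem pow_of_sparse (η s C : ℝ) (hη0 : 0 < η) (hηs : η < s) (hC : 0 ≤ C) (S : Set ℤ)
    (hS : ∀ X : ℝ, 1 ≤ X → ∀ F : Finset ℤ, (∀ x ∈ F, x ∈ S ∧ |(x : ℝ)| ≤ X) →
      (F.card : ℝ) ≤ C * X ^ η) :
    ∀ N : ℝ, 1 ≤ N → ∀ F : Finset ℤ, (∀ x ∈ F, x ∈ S ∧ N ≤ |(x : ℝ)|) →
      ∑ x ∈ F, |(x : ℝ)| ^ (-s) ≤ C * 2 ^ η / (1 - 2 ^ (η - s)) * N ^ (η - s) := by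
  classical
  set ρ : ℝ := 2 ^ (η - s) with hρ
  have hρ0 : 0 < ρ := by positivity
  have hρ1 : ρ < 1 := Real.rpow_lt_one_of_one_lt_of_neg (by norm_num) (by linarith)
  intro N hN F hF
  have hN0 : 0 < N := by linarith
  set lev : ℤ → ℕ := fun x => Nat.log 2 ⌊|(x : ℝ)| / N⌋₊ with hlev
  have hlevel : ∀ x ∈ F, 2 ^ (lev x) * N ≤ |(x : ℝ)| ∧ |(x : ℝ)| ≤ 2 ^ (lev x + 1) * N := by
    intro x hx
    have h1 : 1 ≤ |(x : ℝ)| / N := by rw [one_le_div hN0]; exact (hF x hx).2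
    have hfl : ⌊|(x : ℝ)| / N⌋₊ ≠ 0 := by
      have : 1 ≤ ⌊|(x : ℝ)| / N⌋₊ := Nat.one_le_floor_iff _ |>.2 h1
      omega
    constructor
    · have h2 : 2 ^ lev x ≤ ⌊|(x : ℝ)| / N⌋₊ := Nat.pow_log_le_self 2 hfl
      have h3 : (⌊|(x : ℝ)| / N⌋₊ : ℝ) ≤ |(x : ℝ)| / N := Nat.floor_le (by positivity)
      have h4 : ((2 ^ lev x : ℕ) : ℝ) ≤ (⌊|(x : ℝ)| / N⌋₊ : ℝ) := by exact_mod_cast h2
      push_cast at h4
      have h5 := h4.trans h3
      rwa [le_div_iff₀ hN0] at h5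
    · have h2 : ⌊|(x : ℝ)| / N⌋₊ + 1 ≤ 2 ^ (lev x + 1) :=
        Nat.lt_pow_succ_log_self (b := 2) (by norm_num) ⌊|(x : ℝ)| / N⌋₊
      have h3 : |(x : ℝ)| / N < ⌊|(x : ℝ)| / N⌋₊ + 1 := Nat.lt_floor_add_one _
      have h4 : ((⌊|(x : ℝ)| / N⌋₊ + 1 : ℕ) : ℝ) ≤ ((2 ^ (lev x + 1) : ℕ) : ℝ) := by exact_mod_cast h2
      push_cast at h4
      have h5 : |(x : ℝ)| / N ≤ 2 ^ (lev x + 1) := by linarith
      rwa [div_le_iff₀ hN0] at h5
  set I := F.sup lev + 1 with hI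
  have hmaps : ∀ x ∈ F, lev x ∈ range I := by
    intro x hx
    rw [mem_range, hI]
    exact Nat.lt_succ_of_le (le_sup hx)
  rw [← sum_fiberwise_of_maps_to hmaps]
  have hterm : ∀ i ∈ range I, ∑ x ∈ F with lev x = i, |(x : ℝ)| ^ (-s) ≤
      C * 2 ^ η * N ^ (η - s) * ρ ^ i := by
    intro i _
    set G := F.filter (fun x => lev x = i) with hG
    have hGc : (G.card : ℝ) ≤ C * (2 ^ (i + 1) * N) ^ η := by
      apply hS (2 ^ (i + 1) * N)
      · have : (1 : ℝ) ≤ 2 ^ (i + 1) := one_le_pow₀ (by norm_num)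
        nlinarith
      · intro x hx
        rw [hG, mem_filter] at hx
        refine ⟨(hF x hx.1).1, ?_⟩
        have := (hlevel x hx.1).2
        rwa [hx.2] at this
    have hsum : ∑ x ∈ G, |(x : ℝ)| ^ (-s) ≤ G.card * (2 ^ i * N) ^ (-s) := by
      rw [← nsmul_eq_mul]
      apply sum_le_card_nsmul
      intro x hx
      rw [hG, mem_filter] at hx
      have := (hlevel x hx.1).1
      rw [hx.2] at this
      exact Real.rpow_le_rpow_of_nonpos (by positivity) this (by linarith)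
    refine hsum.trans ((mul_le_mul_of_nonneg_right hGc (by positivity)).trans (le_of_eq ?_))
    have e1 : ((2 : ℝ) ^ (i + 1) * N) ^ η = 2 ^ η * (2 ^ i * N) ^ η := by
      rw [← Real.mul_rpow (by norm_num) (by positivity), pow_succ]; congr 1; ring
    have e2 : ((2 : ℝ) ^ i * N) ^ η * (2 ^ i * N) ^ (-s) = (2 ^ i * N) ^ (η - s) := by
      rw [← Real.rpow_add (by positivity)]; congr 1
    have e3 : ((2 : ℝ) ^ i * N) ^ (η - s) = ρ ^ i * N ^ (η - s) := by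
      rw [Real.mul_rpow (by positivity) hN0.le, hρ, ← Real.rpow_natCast (2 ^ (η - s)) i,
        ← Real.rpow_mul (by norm_num), ← Real.rpow_natCast 2 i, ← Real.rpow_mul (by norm_num)]
      congr 2; ring
    calc C * ((2 : ℝ) ^ (i + 1) * N) ^ η * ((2 ^ i * N) ^ (-s))
        = C * 2 ^ η * (((2 : ℝ) ^ i * N) ^ η * (2 ^ i * N) ^ (-s)) := by rw [e1]; ring
      _ = C * 2 ^ η * (ρ ^ i * N ^ (η - s)) := by rw [e2, e3]
      _ = _ := by ring
  refine (sum_le_sum hterm).trans ?_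
  rw [← mul_sum]
  have hgeom : ∑ i ∈ range I, ρ ^ i ≤ 1 / (1 - ρ) := by
    have h1 : ∑ i ∈ range I, ρ ^ i = (1 - ρ ^ I) / (1 - ρ) := by
      rw [geom_sum_eq hρ1.ne, ← neg_div_neg_eq]; congr 1 <;> ring
    rw [h1]
    apply div_le_div_of_nonneg_right _ (by linarith)
    have : 0 < ρ ^ I := by positivity
    linarith
  calc C * 2 ^ η * N ^ (η - s) * ∑ i ∈ range I, ρ ^ i
      ≤ C * 2 ^ η * N ^ (η - s) * (1 / (1 - ρ)) :=
        mul_le_mul_of_nonneg_left hgeom (by positivity)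
    _ = C * 2 ^ η / (1 - ρ) * N ^ (η - s) := by ring

/-- a set of natural numbers all of whose finite subsets have at most `B` elements -/
theorem finite_of_card_le {S : Set ℕ} {B : ℝ} (h : ∀ F : Finset ℕ, (∀ k ∈ F, k ∈ S) → (F.card : ℝ) ≤ B) :
    S.Finite ∧ (S.ncard : ℝ) ≤ B := by
  have hfin : S.Finite := by
    by_contra hinf
    obtain ⟨t, ht, hc⟩ := Set.Infinite.exists_subset_card_eq hinf (⌊B⌋₊ + 1)
    have h1 := h t (fun k hk => ht (by exact_mod_cast hk))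
    rw [hc] at h1
    have h2 := Nat.lt_floor_add_one B
    push_cast at h1
    linarith
  refine ⟨hfin, ?_⟩
  rw [Set.ncard_eq_toFinset_card _ hfin]
  exact h _ (fun k hk => by simpa using hk)

/-- points of an infinite orbit of the `3x+1` map in an interval -/
theorem orbit_count : ∃ A : ℝ, 0 < A ∧ ∀ x : ℤ,
    (∀ i j : ℕ, (Pool.Agent.TH930.EBQ.T 1)^[i] x = (Pool.Agent.TH930.EBQ.T 1)^[j] x → i = j) →
    ∀ y R : ℝ, 1 ≤ R → ∀ F : Finset ℕ,
      (∀ k ∈ F, |(((Pool.Agent.TH930.EBQ.T 1)^[k] x : ℤ) : ℝ) - y| ≤ R) →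
      (F.card : ℝ) ≤ A * R ^ (94 / 100 : ℝ) := by
  classical
  obtain ⟨A, hA, h⟩ := sparse_ex (η := 94 / 100) eta0_lt (by norm_num)
  refine ⟨A, hA, fun x hinj y R hR F hF => ?_⟩
  set r := F.sup id + 1 with hr
  have hlt : ∀ k ∈ F, k < r := fun k hk => Nat.lt_succ_of_le (le_sup (f := id) hk)
  have h1 := h 1 odd_one _ (Pool.Agent.H319R2.G.tame_path (Pool.Agent.TH930.EBQ.T 1) x r
    (fun i _ j _ hij => hinj i j hij)) y R hR (F.image fun k => (Pool.Agent.TH930.EBQ.T 1)^[k] x) (by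
      intro z hz
      obtain ⟨k, hk, rfl⟩ := mem_image.1 hz
      exact ⟨⟨k, hlt k hk, rfl⟩, hF k hk⟩)
  rw [card_image_of_injective _ (fun i j hij => hinj i j hij)] at h1
  rwa [Int.cast_one, abs_one, Real.one_rpow, mul_one] at h1

/-- sums of negative powers over the terms of an infinite orbit of the `3x+1` map -/
theorem orbit_pow {s : ℝ} (hs : 94 / 100 < s) : ∃ A : ℝ, 0 < A ∧ ∀ x : ℤ,
    (∀ i j : ℕ, (Pool.Agent.TH930.EBQ.T 1)^[i] x = (Pool.Agent.TH930.EBQ.T 1)^[j] x → i = j) →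
    ∀ N : ℝ, 1 ≤ N → ∀ F : Finset ℕ,
      (∀ k ∈ F, N ≤ |(((Pool.Agent.TH930.EBQ.T 1)^[k] x : ℤ) : ℝ)|) →
      ∑ k ∈ F, |(((Pool.Agent.TH930.EBQ.T 1)^[k] x : ℤ) : ℝ)| ^ (-s) ≤ A * N ^ (94 / 100 - s) := by
  classical
  obtain ⟨A, hA, h⟩ := sparse_ex (η := 94 / 100) eta0_lt (by norm_num)
  have hρ1 : (2 : ℝ) ^ (94 / 100 - s) < 1 :=
    Real.rpow_lt_one_of_one_lt_of_neg (by norm_num) (by linarith)
  have hρ0 : (0 : ℝ) < 1 - 2 ^ (94 / 100 - s) := by linarith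
  refine ⟨A * 2 ^ (94 / 100 : ℝ) / (1 - 2 ^ (94 / 100 - s)), by positivity, fun x hinj N hN F hF => ?_⟩
  set r := F.sup id + 1 with hr
  have hlt : ∀ k ∈ F, k < r := fun k hk => Nat.lt_succ_of_le (le_sup (f := id) hk)
  have h2 := pow_of_sparse (94 / 100) s A (by norm_num) hs hA.le
    ((fun i => (Pool.Agent.TH930.EBQ.T 1)^[i] x) '' (Set.Iio r)) (by
      intro X hX G hG
      have h1 := h 1 odd_one _ (Pool.Agent.H319R2.G.tame_path (Pool.Agent.TH930.EBQ.T 1) x r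
        (fun i _ j _ hij => hinj i j hij)) 0 X hX G (by
          intro z hz
          rw [sub_zero]
          exact hG z hz)
      rwa [Int.cast_one, abs_one, Real.one_rpow, mul_one] at h1) N hN
    (F.image fun k => (Pool.Agent.TH930.EBQ.T 1)^[k] x) (by
      intro z hz
      obtain ⟨k, hk, rfl⟩ := mem_image.1 hz
      exact ⟨⟨k, hlt k hk, rfl⟩, hF k hk⟩)
  rwa [sum_image (fun i _ j _ hij => hinj i j hij)] at h2

end Pool.Agent.N905.EX
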