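import Pool.Agent.TH930.SP.Rigid
import Pool.Agent.N905.EX.Loc

/-! Rigidity of orbits and cycles of the `3x+k` maps with an explicit exponent. -/

set_option autoImplicit false

namespace Pool.Agent.N905.EX

open Finset Filter Topology
open Pool.Agent.H319R2.G (Tame recip_of_sparse)
open Pool.Agent.H319R2.Tk (od gc gc_T gc_R gc_lg)
open Pool.Agent.TH930.EBQ (T)
open Pool.Agent.TH930.SP (T_eq cycle_of_rigid cycleLengths exists_min)

theorem rigid_ex {η : ℝ} (hη : η0 < η) (hη1 : η < 1) : ∃ A : ℝ, 0 < A ∧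
    (∀ k : ℤ, Odd k → ∀ S : Set ℤ, Tame (T k) S → ∀ y R : ℝ, 1 ≤ R → ∀ F : Finset ℤ,
      (∀ x ∈ F, x ∈ S ∧ |(x : ℝ) - y| ≤ R) → (F.card : ℝ) ≤ A * |(k : ℝ)| ^ (1 - η) * R ^ η) ∧
    (∀ k : ℤ, Odd k → ∀ (x : ℤ) (n : ℕ), Set.InjOn (fun i => (T k)^[i] x) (Set.Iio n) → ∀ N : ℝ,
      2 * |(k : ℝ)| + 1 ≤ N → (∀ j < n, N ≤ |(((T k)^[j] x : ℤ) : ℝ)|) →
      |Real.log |(((T k)^[n] x : ℤ) : ℝ)| - Real.log |(x : ℝ)| -
        (od k n x * Real.log 3 - n * Real.log 2)| ≤ A * |(k : ℝ)| ^ (2 - η) * N ^ (η - 1)) := by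
  obtain ⟨A, hA, h⟩ := sparse_ex hη hη1
  have hη0 : 0 < η := eta0_pos.trans hη
  have hρ1 : (2 : ℝ) ^ (η - 1) < 1 := Real.rpow_lt_one_of_one_lt_of_neg (by norm_num) (by linarith)
  have hρ0 : (0 : ℝ) < 1 - 2 ^ (η - 1) := by linarith
  have hk1 : ∀ k : ℤ, Odd k → (1 : ℝ) ≤ |(k : ℝ)| := by
    intro k hk
    have hk0 : k ≠ 0 := by rintro rfl; simp at hk
    have : (1 : ℤ) ≤ |k| := Int.one_le_abs hk0
    exact_mod_cast this
  set A' : ℝ := 2 * (A * 2 ^ η / (1 - 2 ^ (η - 1))) with hA'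
  have hA'0 : 0 < A' := by positivity
  refine ⟨A + A', by positivity, ?_, ?_⟩
  · intro k hk S hS y R hR F hF
    have hk := hk1 k hk
    refine (h k ‹_› S hS y R hR F hF).trans ?_
    apply mul_le_mul_of_nonneg_right _ (Real.rpow_nonneg (by linarith) _)
    exact mul_le_mul_of_nonneg_right (by linarith) (by positivity)
  · intro k hk x n hinj N hN hmin
    have hkk := hk1 k hk
    have hk2 : k % 2 = 1 := Int.odd_iff.1 hk
    have hN1 : 1 ≤ N := by linarith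
    have hN0 : 0 < N := by linarith
    have h1 := (gc k hk2).log_iter_sum x n (by
      intro j hj
      rw [gc_R, gc_T]
      exact hN.trans (hmin j hj))
    rw [gc_R, gc_T, gc_lg] at h1
    have hsp : ∀ X : ℝ, 1 ≤ X → ∀ F : Finset ℤ,
        (∀ y ∈ F, y ∈ ((fun i => (T k)^[i] x) '' (Set.Iio n)) ∧ |(y : ℝ)| ≤ X) →
        (F.card : ℝ) ≤ (A * |(k : ℝ)| ^ (1 - η)) * X ^ η := by
      intro X hX F hF
      apply h k hk _ (Pool.Agent.H319R2.G.tame_path (T k) x n hinj) 0 X hX F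
      intro y hy
      rw [sub_zero]
      exact hF y hy
    have h2 := recip_of_sparse η (A * |(k : ℝ)| ^ (1 - η)) hη0 hη1 (by positivity) _ hsp N hN1
      ((range n).image fun i => (T k)^[i] x) (by
        intro y hy
        rw [mem_image] at hy
        obtain ⟨i, hi, rfl⟩ := hy
        rw [mem_range] at hi
        exact ⟨⟨i, hi, rfl⟩, hmin i hi⟩)
    rw [sum_image (by
      intro i hi j hj hij
      exact hinj (by simpa using hi) (by simpa using hj) hij)] at h2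
    have h3 := mul_le_mul_of_nonneg_left h2 (by positivity : 0 ≤ 2 * |(k : ℝ)|)
    refine h1.trans (h3.trans ?_)
    have e : 2 * |(k : ℝ)| * (A * |(k : ℝ)| ^ (1 - η) * 2 ^ η / (1 - 2 ^ (η - 1)) * N ^ (η - 1)) =
        A' * (|(k : ℝ)| ^ (1 - η) * |(k : ℝ)|) * N ^ (η - 1) := by rw [hA']; ring
    rw [e, ← Real.rpow_add_one (by linarith), show (1 - η + 1 : ℝ) = 2 - η by ring]
    apply mul_le_mul_of_nonneg_right _ (by positivity)
    exact mul_le_mul_of_nonneg_right (by linarith) (by positivity)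

/-- the number of cycle lengths up to `P`, uniformly in `k` -/
theorem lengths_ex {η : ℝ} (hηe : η0 < η) (hη1 : η < 1) : ∃ A : ℝ, 0 < A ∧ ∀ k : ℤ, Odd k → ∀ P : ℕ, 1 ≤ P →
    (Set.ncard {p : ℕ | p ∈ cycleLengths k ∧ p ≤ P} : ℝ) ≤ A * |(k : ℝ)| * (P : ℝ) ^ η := by
  classical
  obtain ⟨A, hA, hsp, hrig⟩ := rigid_ex hηe hη1
  obtain ⟨C3, hC3, hbohr⟩ := Pool.Agent.H319R2.bohr_count
  have hg := eta0_gt
  have hη : 12 / 13 < η := by linarith
  have hη0 : 0 < η := by linarith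
  refine ⟨3 * A + C3 * (A + 1), by positivity, ?_⟩
  intro k hk P hP
  have hk0 : k ≠ 0 := by rintro rfl; simp at hk
  have hPr : (1 : ℝ) ≤ P := by exact_mod_cast hP
  have hP0 : (0 : ℝ) < P := by linarith
  set κ : ℝ := |(k : ℝ)| with hκ
  have hκ1 : 1 ≤ κ := by
    have : (1 : ℤ) ≤ |k| := Int.one_le_abs hk0
    rw [hκ]; exact_mod_cast this
  have hκ0 : 0 < κ := by linarith
  have hch : ∀ p : ℕ, ∃ y : ℤ, p ∈ cycleLengths k →
      Function.minimalPeriod (T k) y = p ∧ ∀ j, |y| ≤ |(T k)^[j] y| := by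
    intro p
    by_cases hp : p ∈ cycleLengths k
    · obtain ⟨y, hy⟩ := exists_min hp
      exact ⟨y, fun _ => hy⟩
    · exact ⟨0, fun h => absurd h hp⟩
  choose f hf using hch
  set L : Finset ℕ := (range (P + 1)).filter (fun p => p ∈ cycleLengths k) with hL
  have hset : {p : ℕ | p ∈ cycleLengths k ∧ p ≤ P} = (L : Set ℕ) := by
    ext p
    rw [hL]
    simp only [Set.mem_ofPred_eq, coe_filter, mem_range, Nat.lt_succ_iff]
    tauto
  rw [hset, Set.ncard_coe_finset]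
  set M : ℝ := 3 * κ * P with hM
  have hM0 : 0 < M := by positivity
  have hM1 : 2 * κ + 1 ≤ M := by
    have : 3 * κ ≤ 3 * κ * P := le_mul_of_one_le_right (by positivity) hPr
    rw [hM]; linarith
  set L1 := L.filter (fun p => |((f p : ℤ) : ℝ)| ≤ M) with hL1
  set L2 := L.filter (fun p => ¬ |((f p : ℤ) : ℝ)| ≤ M) with hL2
  have hsplit : L1.card + L2.card = L.card := by
    rw [hL1, hL2]; exact card_filter_add_card_filter_not (s := L) _
  have hLmem : ∀ p ∈ L, p ∈ cycleLengths k ∧ p ≤ P := by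
    intro p hp
    rw [hL, mem_filter, mem_range] at hp
    exact ⟨hp.2, by omega⟩
  have h1 : (L1.card : ℝ) ≤ 3 * A * κ * (P : ℝ) ^ η := by
    have hinj : Set.InjOn f L1 := by
      intro p hp p' hp' h
      have hp := (mem_filter.1 hp).1
      have hp' := (mem_filter.1 hp').1
      rw [← (hf p (hLmem p hp).1).1, ← (hf p' (hLmem p' hp').1).1, h]
    have h2 : (L1.card : ℝ) ≤ A * κ ^ (1 - η) * M ^ η := by
      rw [← card_image_of_injOn hinj]
      apply hsp k hk _ (Pool.Agent.H319R2.G.tame_periodic (T k)) 0 M (by linarith)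
      intro x hx
      rw [mem_image] at hx
      obtain ⟨p, hp, rfl⟩ := hx
      rw [hL1, mem_filter] at hp
      rw [sub_zero]
      refine ⟨?_, hp.2⟩
      rw [← Function.minimalPeriod_pos_iff_mem_periodicPts, (hf p (hLmem p hp.1).1).1]
      exact (hLmem p hp.1).1.1
    have e : M ^ η ≤ 3 * κ ^ η * (P : ℝ) ^ η := by
      rw [hM, Real.mul_rpow (by positivity) hP0.le, Real.mul_rpow (by norm_num) hκ0.le]
      apply mul_le_mul_of_nonneg_right _ (by positivity)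
      apply mul_le_mul_of_nonneg_right _ (by positivity)
      calc (3 : ℝ) ^ η ≤ 3 ^ (1 : ℝ) := Real.rpow_le_rpow_of_exponent_le (by norm_num) hη1.le
        _ = 3 := Real.rpow_one _
    calc (L1.card : ℝ) ≤ A * κ ^ (1 - η) * M ^ η := h2
      _ ≤ A * κ ^ (1 - η) * (3 * κ ^ η * (P : ℝ) ^ η) := mul_le_mul_of_nonneg_left e (by positivity)
      _ = 3 * A * (κ ^ (1 - η) * κ ^ η) * (P : ℝ) ^ η := by ring
      _ = _ := by
        rw [← Real.rpow_add hκ0, show (1 - η + η : ℝ) = 1 by ring, Real.rpow_one]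
  have h2 : (L2.card : ℝ) ≤ C3 * ((A * κ ^ (2 - η) * M ^ (η - 1)) * P +
      (P : ℝ) ^ (12 / 13 : ℝ)) := by
    apply hbohr P hP _ (by positivity)
    intro p hp
    rw [hL2, mem_filter] at hp
    obtain ⟨hpL, hbig⟩ := hp
    obtain ⟨hpc, hpP⟩ := hLmem p hpL
    obtain ⟨hy1, hy2⟩ := hf p hpc
    refine ⟨hpP, (od k p (f p) : ℤ), ?_⟩
    have hbig' : M < |((f p : ℤ) : ℝ)| := not_le.1 hbig
    have := cycle_of_rigid (hrig k hk) (f p) p hy1.symm M hM1 (by
      intro j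
      refine hbig'.le.trans ?_
      have := hy2 j
      exact_mod_cast this)
    rw [Int.cast_natCast]
    exact this
  have e1 : κ ^ (2 - η) * M ^ (η - 1) * P ≤ κ * (P : ℝ) ^ η := by
    have e2 : M ^ (η - 1) ≤ κ ^ (η - 1) * (P : ℝ) ^ (η - 1) := by
      rw [← Real.mul_rpow hκ0.le hP0.le]
      apply Real.rpow_le_rpow_of_nonpos (by positivity) _ (by linarith)
      rw [hM]
      have : 0 < κ * P := by positivity
      nlinarith
    calc κ ^ (2 - η) * M ^ (η - 1) * P ≤ κ ^ (2 - η) * (κ ^ (η - 1) * (P : ℝ) ^ (η - 1)) * P := by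
          gcongr
      _ = (κ ^ (2 - η) * κ ^ (η - 1)) * ((P : ℝ) ^ (η - 1) * P) := by ring
      _ = κ * (P : ℝ) ^ η := by
        rw [← Real.rpow_add hκ0, ← Real.rpow_add_one hP0.ne',
          show (2 - η + (η - 1) : ℝ) = 1 by ring, Real.rpow_one,
          show (η - 1 + 1 : ℝ) = η by ring]
  have e2 : (P : ℝ) ^ (12 / 13 : ℝ) ≤ (P : ℝ) ^ η :=
    Real.rpow_le_rpow_of_exponent_le hPr hη.le
  have e3 : (L.card : ℝ) = L1.card + L2.card := by exact_mod_cast hsplit.symm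
  have hpos : 0 ≤ (P : ℝ) ^ η := by positivity
  have h2' : (L2.card : ℝ) ≤ C3 * (A + 1) * κ * (P : ℝ) ^ η := by
    refine h2.trans ?_
    have a1 : A * κ ^ (2 - η) * M ^ (η - 1) * P ≤ A * κ * (P : ℝ) ^ η := by
      calc A * κ ^ (2 - η) * M ^ (η - 1) * P = A * (κ ^ (2 - η) * M ^ (η - 1) * P) := by ring
        _ ≤ A * (κ * (P : ℝ) ^ η) := mul_le_mul_of_nonneg_left e1 hA.le
        _ = _ := by ring
    have a2 : (P : ℝ) ^ η ≤ κ * (P : ℝ) ^ η := le_mul_of_one_le_left hpos hκ1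
    have a3 : C3 * ((A * κ ^ (2 - η) * M ^ (η - 1)) * P + (P : ℝ) ^ (12 / 13 : ℝ)) ≤
        C3 * (A * κ * (P : ℝ) ^ η + κ * (P : ℝ) ^ η) := by
      apply mul_le_mul_of_nonneg_left _ hC3.le
      linarith
    refine a3.trans (le_of_eq ?_)
    ring
  rw [e3]
  linarith

end Pool.Agent.N905.EX
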