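import Pool.Agent.TH930.PS.Three
import Pool.Agent.N905.EX.Base

/-! The `3x+k` maps: power saving with an explicit exponent. -/

set_option autoImplicit false

namespace Pool.Agent.N905.EX

open Finset Filter Topology Pool.Agent.H499R2.ND Pool.Agent.H828R3.GP Pool.Agent.TH930.PS
open Pool.Agent.H319R3.GC (Adm Tm PP)
open Pool.Agent.TH930 (EBQ.ones_append)
open Pool.Agent.TH930.EBQ (ones wd)

/-- THE BOUND FOR THE STUCK SETS -/
theorem card_Sj_ex {k : ℤ} (hk : Odd k) : ∃ A : ℝ, 0 ≤ A ∧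
    ∀ i : ℕ, 1 ≤ i → ((Sj 2 m3 (r3 k) (1 / 3) i).card : ℝ) ≤ A * (((2 : ℕ) : ℝ) ^ η0) ^ i := by
  classical
  obtain ⟨C, μ, hC, hμ0, hμ1, hmain⟩ := count_ex
  have t1 : Tendsto (fun i : ℕ => μ * (i : ℝ)) atTop atTop :=
    Tendsto.const_mul_atTop hμ0 tendsto_natCast_atTop_atTop
  have t2 : Tendsto (fun i : ℕ => Real.exp (μ * (i : ℝ))) atTop atTop :=
    Real.tendsto_exp_atTop.comp t1
  have e1 : ∀ᶠ i : ℕ in atTop, max 4 |(k : ℝ)| ≤ Real.exp (μ * (i : ℝ)) :=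
    t2.eventually_ge_atTop _
  have e2 : ∀ᶠ i : ℕ in atTop, 16 * (i : ℝ) * |(k : ℝ)| ≤ (2 : ℝ) ^ i := by
    have h1 := tendsto_pow_const_div_const_pow_of_one_lt 1 (show (1 : ℝ) < 2 by norm_num)
    have h2 := h1.eventually_le_const (show (0 : ℝ) < 1 / (16 * (|(k : ℝ)| + 1)) by positivity)
    filter_upwards [h2] with i hi
    rw [div_le_div_iff₀ (by positivity) (by positivity), pow_one] at hi
    have : (0 : ℝ) ≤ i := Nat.cast_nonneg i
    nlinarith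
  obtain ⟨i0, hi0⟩ := eventually_atTop.1 (e1.and e2)
  have h2η : (1 : ℝ) ≤ 2 ^ η0 := Real.one_le_rpow (by norm_num) eta0_pos.le
  refine ⟨max C (3 * 2 ^ i0), le_max_of_le_left hC.le, ?_⟩
  intro i hi
  push_cast
  rcases lt_or_ge i i0 with hsm | hbig
  · have h1 : (Sj 2 m3 (r3 k) (1 / 3) i).card ≤ 3 * 2 ^ i := by
      have h2 : Sj 2 m3 (r3 k) (1 / 3) i ⊆ Icc (-(((2 : ℕ) : ℤ)) ^ i) ((((2 : ℕ) : ℤ)) ^ i) := by
        unfold Sj
        exact filter_subset _ _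
      refine (card_le_card h2).trans ?_
      rw [Int.card_Icc]
      push_cast
      have : (1 : ℤ) ≤ 2 ^ i := one_le_pow₀ (by norm_num)
      have h5 : ((3 * 2 ^ i : ℕ) : ℤ) = 3 * 2 ^ i := by push_cast; rfl
      omega
    have h2 : 3 * 2 ^ i ≤ 3 * 2 ^ i0 := Nat.mul_le_mul_left 3 (Nat.pow_le_pow_right (by norm_num) hsm.le)
    have h3 : ((Sj 2 m3 (r3 k) (1 / 3) i).card : ℝ) ≤ 3 * 2 ^ i0 := by exact_mod_cast h1.trans h2
    calc ((Sj 2 m3 (r3 k) (1 / 3) i).card : ℝ) ≤ 3 * 2 ^ i0 * 1 := by rw [mul_one]; exact h3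
      _ ≤ max C (3 * 2 ^ i0) * ((2 : ℝ) ^ η0) ^ i :=
          mul_le_mul (le_max_right _ _) (one_le_pow₀ h2η) (by norm_num)
            (le_max_of_le_left hC.le)
  · obtain ⟨h1, h2⟩ := hi0 i hbig
    have h3 := hmain k hk i 4 (by norm_num) (by
      push_cast; exact (le_max_left _ _).trans h1) ((le_max_right _ _).trans h1) 0
      (Sj 2 m3 (r3 k) (1 / 3) i) (by
        intro x hx
        unfold Sj at hx
        rw [mem_filter, mem_Icc] at hx
        push_cast at hx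
        obtain ⟨⟨hx1, hx2⟩, hx3, hx4⟩ := hx
        refine ⟨by rw [sub_zero]; exact abs_le.2 ⟨hx1, hx2⟩, fun j hj => ?_⟩
        rw [Tm3] at hx4
        apply stay_mult hk hi _ hx3.le (fun n hn => hx4 n (hn.trans hj))
        have hj2 : (j : ℝ) ≤ 2 * i := by
          have a1 : ⌊(1 / 3 : ℝ) * (i : ℝ)⌋₊ ≤ i := by
            apply Nat.floor_le_of_le
            calc (1 / 3 : ℝ) * (i : ℝ) ≤ 1 * i := mul_le_mul_of_nonneg_right (by norm_num) (Nat.cast_nonneg i)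
              _ = i := one_mul _
          have a2 : j ≤ 2 * i := by omega
          exact_mod_cast a2
        have e : (2 : ℝ) ^ i = 2 * (2 : ℝ) ^ (i - 1) := by rw [← pow_succ']; congr 1; omega
        have h5 : (j : ℝ) * |(k : ℝ)| ≤ 2 * i * |(k : ℝ)| :=
          mul_le_mul_of_nonneg_right hj2 (abs_nonneg _)
        rw [e] at h2
        linarith)
    refine h3.trans ?_
    exact mul_le_mul_of_nonneg_right (le_max_left _ _) (by positivity)

/-- UNIFORM POWER SAVING, EXPLICIT EXPONENT, for the `3x+k` maps -/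
theorem three_ex {k : ℤ} (hk : Odd k) : ∃ C : ℝ, 0 < C ∧
    ∀ X y : ℝ, 1 ≤ X → 1 ≤ y →
    ({x : ℤ | |(x : ℝ)| ≤ X ∧ ∀ n : ℕ, y < |(((Td k)^[n] x : ℤ) : ℝ)|}.ncard : ℝ) ≤
      C * X / y ^ (6 / 100 : ℝ) := by
  obtain ⟨A, hA, hSt⟩ := card_Sj_ex hk
  have hb := eta0_lt
  have h := power_saving' (adm3 hk) hA (by norm_num) eta0_pos.le (by linarith) hSt
    (c := 6 / 100) (by norm_num) (by linarith)
  rw [Tm3] at h
  exact h

end Pool.Agent.N905.EX
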