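import Pool.Agent.N905.EX.Lt

set_option autoImplicit false

/-! The points with a late large value. -/

namespace Pool.Agent.N905.EX

open Finset Filter Topology Pool.Agent.Helper894.Collatz Pool.Agent.H377R2 Pool.Agent.H319R2.Lln
open Pool.Agent.TH930.EBQ (ones wd)
open Pool.Agent.TH930.PS (lin_le_exp)
open Pool.Agent.TH930.LT (iter_le_two)

open scoped Classical in
/-- the points of level `i` which stay up to the time `s`, with the value above `V` at `s` -/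
noncomputable def As (V : ℝ) (i s : ℕ) : Finset ℕ :=
  (range (2 ^ i)).filter fun z => 2 ^ i ≤ 2 * z ∧ (∀ r < s, 2 ^ (i - 1) ≤ T^[r] z) ∧ V < (T^[s] z : ℕ)

lemma mem_As {V : ℝ} {i s z : ℕ} : z ∈ As V i s ↔ z < 2 ^ i ∧ 2 ^ i ≤ 2 * z ∧
    (∀ r < s, 2 ^ (i - 1) ≤ T^[r] z) ∧ V < (T^[s] z : ℕ) := by
  classical
  unfold As
  rw [mem_filter, mem_range]

/-- the number of the points for one time -/
theorem card_As : ∃ C : ℝ, 0 < C ∧ ∃ i0 : ℕ, ∀ i : ℕ, i0 ≤ i → ∀ s : ℕ, i < s → s ≤ Kq i → ∀ V : ℝ,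
    (2 : ℝ) ^ i < V * rho ^ i → ((As V i s).card : ℝ) ≤ C * (2 : ℝ) ^ ((9384 / 10000 : ℝ) * i) := by
  classical
  obtain ⟨C, μ, hC, hμ0, hμ1, hmain⟩ := Pool.Agent.N905.FM.count_height
  have hl2 : 0 < Real.log 2 := Real.log_pos (by norm_num)
  have hl2a := Real.log_two_gt_d9
  have hl2b := Real.log_two_lt_d9
  have e1 := lin_le_exp (a := 1 / 16) (by norm_num) 16
  have e2 : ∀ᶠ N : ℕ in atTop, max (8 / μ) 8 ≤ (N : ℝ) :=
    tendsto_natCast_atTop_atTop.eventually_ge_atTop _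
  obtain ⟨i0, hi0⟩ := eventually_atTop.1 (e1.and e2)
  refine ⟨2 * C, by positivity, i0, ?_⟩
  intro i hbig s his hsK V hV
  obtain ⟨h1, h2⟩ := hi0 i hbig
  have hμi : 8 / μ ≤ i := (le_max_left _ _).trans h2
  have hi8 : (8 : ℝ) ≤ i := (le_max_right _ _).trans h2
  have hi8' : 8 ≤ i := by exact_mod_cast hi8
  have hμi' : 8 ≤ μ * i := by rw [div_le_iff₀ hμ0] at hμi; linarith
  rcases (As V i s).eq_empty_or_nonempty with h0 | ⟨z0, hz0⟩
  · rw [h0, card_empty, Nat.cast_zero]; positivity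
  obtain ⟨l, hl⟩ : ∃ l, l = s / 4 := ⟨_, rfl⟩
  have hl1 : 4 * l ≤ s := by omega
  have hl2' : s < 4 * l + 4 := by omega
  have hli : 3 * l ≤ i := by unfold Kq at hsK; omega
  have hl0 : 2 ≤ l := by omega
  have hρ := rho_pos
  have h2i : (0 : ℝ) < 2 ^ i := by positivity
  have hρi : 0 < rho ^ i := pow_pos hρ i
  have hρ1 : rho ^ i ≤ 1 := by
    apply pow_le_one₀ hρ.le
    by_contra hcon
    push Not at hcon
    have := one_lt_pow₀ hcon (n := 41) (by norm_num)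
    have := rho_pow
    linarith
  have hV0 : 0 < V := by
    by_contra hcon
    push Not at hcon
    have : V * rho ^ i ≤ 0 := mul_nonpos_of_nonpos_of_nonneg hcon hρi.le
    linarith
  have hV1 : (2 : ℝ) ^ i ≤ V := by nlinarith
  -- the height
  set H : ℝ := V / 2 ^ i with hH
  have hH0 : 0 < H := by positivity
  have hH1 : 1 ≤ H := by rw [hH, le_div_iff₀ h2i]; linarith
  have hH2 : H ≤ 2 ^ (4 * (3 * l)) := by
    rw [mem_As] at hz0
    obtain ⟨a1, a2, -, a4⟩ := hz0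
    have hz00 : 0 < z0 := by
      have : 0 < 2 ^ i := by positivity
      omega
    have a5 : T^[s] z0 ≤ 2 ^ s * z0 := iter_le_two hz00 s
    have a6 : ((T^[s] z0 : ℕ) : ℝ) ≤ 2 ^ s * 2 ^ i := by
      have : T^[s] z0 ≤ 2 ^ s * 2 ^ i := a5.trans (Nat.mul_le_mul_left _ a1.le)
      exact_mod_cast this
    rw [hH, div_le_iff₀ h2i]
    have a7 : (2 : ℝ) ^ s ≤ 2 ^ (4 * (3 * l)) := pow_le_pow_right₀ (by norm_num) (by omega)
    calc V ≤ 2 ^ s * 2 ^ i := a4.le.trans a6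
      _ ≤ _ := mul_le_mul_of_nonneg_right a7 h2i.le
  have hH3 : (2 : ℝ) ^ ((2 / 41 : ℝ) * i) ≤ H := by
    have a1 : (2 : ℝ) ^ ((2 / 41 : ℝ) * i) = (((4 : ℝ) ^ i)) ^ (1 / 41 : ℝ) := by
      rw [show (4 : ℝ) = 2 ^ 2 by norm_num, ← pow_mul, ← Real.rpow_natCast, ← Real.rpow_mul (by norm_num)]
      congr 1; push_cast; ring
    have a2 : H = (H ^ 41) ^ (1 / 41 : ℝ) := by
      rw [← Real.rpow_natCast, ← Real.rpow_mul hH0.le]; norm_num
    rw [a1, a2]
    apply Real.rpow_le_rpow (by positivity) _ (by norm_num)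
    have a3 : 1 ≤ H * rho ^ i := by
      rw [hH, div_mul_eq_mul_div, le_div_iff₀ h2i]; linarith
    have a4 : (rho ^ i) ^ 41 ≤ (1 / 4) ^ i := by
      rw [← pow_mul, mul_comm i 41, pow_mul]
      exact pow_le_pow_left₀ (pow_nonneg rho_pos.le _) rho_pow i
    have a5 : 1 ≤ H ^ 41 * (1 / 4) ^ i := by
      calc (1 : ℝ) ≤ (H * rho ^ i) ^ 41 := one_le_pow₀ a3
        _ = H ^ 41 * (rho ^ i) ^ 41 := by rw [mul_pow]
        _ ≤ _ := mul_le_mul_of_nonneg_left a4 (by positivity)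
    calc (4 : ℝ) ^ i ≤ 4 ^ i * (H ^ 41 * (1 / 4) ^ i) := le_mul_of_one_le_right (by positivity) a5
      _ = H ^ 41 * (4 * (1 / 4)) ^ i := by rw [mul_pow]; ring
      _ = H ^ 41 := by norm_num
  -- the conditions
  have hkey : ∀ z ∈ As V i s, z < 2 ^ i ∧ (2 : ℝ) ^ l ≤ 16 * 3 ^ ones (wd 1 l z) ∧
      H * 2 ^ (4 * l) ≤ 16 * 3 ^ ones (wd 1 (4 * l) z) := by
    intro z hz
    rw [mem_As] at hz
    obtain ⟨z1, z2, z3, z4⟩ := hz
    have hz1 : (z : ℝ) ≤ 2 ^ i := by exact_mod_cast z1.le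
    have hz00 : 0 < z := by
      have : 0 < 2 ^ i := by positivity
      omega
    have e2i : (2 : ℝ) ^ i = 2 * 2 ^ (i - 1) := by rw [← pow_succ']; congr 1; omega
    have hY0 : (0 : ℝ) < 2 ^ (i - 1) := by positivity
    have hst : ∀ r ≤ 4 * l, (2 : ℝ) ^ (i - 1) ≤ ((T^[r] z : ℕ) : ℝ) := by
      intro r hr
      rcases lt_or_ge r s with h3 | h3
      · exact_mod_cast z3 r h3
      · have : r = s := by omega
        rw [this]
        linarith
    have hn : ∀ n ≤ 4 * l, 4 * (n : ℝ) ≤ 2 ^ (i - 1) := by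
      intro n hn
      have e3 : (n : ℝ) ≤ 4 / 3 * i := by
        have a1 : (n : ℝ) ≤ 4 * l := by exact_mod_cast hn
        have a2 : 3 * (l : ℝ) ≤ i := by exact_mod_cast hli
        linarith
      have e5 : (2 : ℝ) ^ i = Real.exp (i * Real.log 2) := by
        rw [Real.exp_nat_mul, Real.exp_log (by norm_num)]
      have e6 : Real.exp (1 / 16 * i) ≤ 2 ^ i := by
        rw [e5]
        apply Real.exp_le_exp.2
        have e7 : (i : ℝ) * (69 / 100) ≤ i * Real.log 2 :=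
          mul_le_mul_of_nonneg_left (by linarith) (by linarith)
        linarith
      linarith
    refine ⟨z1, ?_, ?_⟩
    · have h3 := stay_nat hY0 (hn l (by omega)) (fun j hj => hst j (by omega))
      have h4 := hst l (by omega)
      have h5 : (2 : ℝ) ^ l * 2 ^ i ≤ (16 * 3 ^ ones (wd 1 l z)) * 2 ^ i := by
        calc (2 : ℝ) ^ l * 2 ^ i = 2 * (2 ^ l * 2 ^ (i - 1)) := by rw [e2i]; ring
          _ ≤ 2 * (2 ^ l * ((T^[l] z : ℕ) : ℝ)) := by gcongr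
          _ ≤ 2 * (2 * ((3 : ℝ) ^ ones (wd 1 l z) * z)) := by gcongr
          _ ≤ 2 * (2 * ((3 : ℝ) ^ ones (wd 1 l z) * 2 ^ i)) := by gcongr
          _ ≤ (16 * 3 ^ ones (wd 1 l z)) * 2 ^ i := by
              have : 0 ≤ (3 : ℝ) ^ ones (wd 1 l z) * 2 ^ i := by positivity
              linarith
      exact le_of_mul_le_mul_right h5 h2i
    · have h3 := stay_nat hY0 (hn (4 * l) le_rfl) hst
      have h4 : V ≤ 8 * ((T^[4 * l] z : ℕ) : ℝ) := by
        obtain ⟨r, hr⟩ := Nat.exists_eq_add_of_le hl1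
        have a1 : T^[s] z ≤ 2 ^ r * T^[4 * l] z := by
          rw [hr, add_comm, Function.iterate_add_apply]
          exact iter_le_two (iter_pos hz00 _) r
        have a2 : 2 ^ r ≤ 8 := by
          calc 2 ^ r ≤ 2 ^ 3 := Nat.pow_le_pow_right (by norm_num) (by omega)
            _ = 8 := by norm_num
        have a3 : T^[s] z ≤ 8 * T^[4 * l] z := a1.trans (Nat.mul_le_mul_right _ a2)
        have a4 : ((T^[s] z : ℕ) : ℝ) ≤ 8 * ((T^[4 * l] z : ℕ) : ℝ) := by exact_mod_cast a3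
        linarith
      rw [hH, div_mul_eq_mul_div, div_le_iff₀ h2i]
      calc V * 2 ^ (4 * l) ≤ (8 * ((T^[4 * l] z : ℕ) : ℝ)) * 2 ^ (4 * l) := by gcongr
        _ = 8 * (2 ^ (4 * l) * ((T^[4 * l] z : ℕ) : ℝ)) := by ring
        _ ≤ 8 * (2 * ((3 : ℝ) ^ ones (wd 1 (4 * l) z) * z)) := by gcongr
        _ ≤ 8 * (2 * ((3 : ℝ) ^ ones (wd 1 (4 * l) z) * 2 ^ i)) := by gcongr
        _ = _ := by ring
  -- one short interval
  have hW3 : 3 * l / 3 = l := by omega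
  have hWr : 3 / 4 * ((i : ℝ) - 2) ≤ ((3 * l : ℕ) : ℝ) := by
    have a1 : i ≤ 4 * l + 2 := by omega
    have a2 : (i : ℝ) ≤ 4 * l + 2 := by exact_mod_cast a1
    push_cast
    linarith
  have hQ16 : (((16 : ℕ) : ℕ) : ℝ) ≤ Real.exp (μ * ((3 * l : ℕ) : ℝ)) := by
    have a1 : Real.exp (4 * Real.log 2) = 16 := by
      rw [show (4 : ℝ) * Real.log 2 = ((4 : ℕ) : ℝ) * Real.log 2 by norm_num, Real.exp_nat_mul,
        Real.exp_log (by norm_num)]
      norm_num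
    push_cast
    rw [← a1]
    apply Real.exp_le_exp.2
    have a2 : μ * (3 / 4 * ((i : ℝ) - 2)) ≤ μ * ((3 * l : ℕ) : ℝ) := mul_le_mul_of_nonneg_left hWr hμ0.le
    push_cast at a2
    nlinarith
  set E : ℝ := C * (Real.exp (((3 * l : ℕ) : ℝ) * (Real.log 2 * Pool.Agent.N905.FM.η0)) / H ^ (89 / 262 : ℝ))
    with hE
  have hpiece : ∀ t ∈ range (2 ^ (i - 3 * l)), (((As V i s).filter (fun z => z / 2 ^ (3 * l) = t)).card : ℝ) ≤ E := by
    intro t _
    set F := (As V i s).filter (fun z => z / 2 ^ (3 * l) = t) with hF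
    set B : Finset ℤ := F.image (fun z : ℕ => (z : ℤ)) with hB
    have hBc : B.card = F.card := by
      rw [hB, card_image_of_injective _ Nat.cast_injective]
    have h3 := hmain 1 odd_one (3 * l) 16 (by norm_num) hQ16 (by
      rw [Int.cast_one, abs_one]
      exact Real.one_le_exp (by positivity)) H hH1 hH2 ((t * 2 ^ (3 * l) : ℕ) : ℤ) B (by
      intro x hx
      rw [hB, mem_image] at hx
      obtain ⟨z, hz, rfl⟩ := hx
      rw [hF, mem_filter] at hz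
      obtain ⟨k1, k2, k3⟩ := hkey z hz.1
      rw [hW3]
      refine ⟨?_, by exact_mod_cast k2, by push_cast; exact k3⟩
      have a1 := Nat.div_add_mod z (2 ^ (3 * l))
      rw [hz.2] at a1
      have a2 : z % 2 ^ (3 * l) < 2 ^ (3 * l) := Nat.mod_lt _ (by positivity)
      have a3 : (z : ℤ) - ((t * 2 ^ (3 * l) : ℕ) : ℤ) = ((z % 2 ^ (3 * l) : ℕ) : ℤ) := by
        have : (z : ℤ) = ((2 ^ (3 * l) * t + z % 2 ^ (3 * l) : ℕ) : ℤ) := by rw [a1]
        rw [this]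
        push_cast
        have a4 : ((2 : ℤ) ^ (3 * l) * t + z % 2 ^ (3 * l)) % 2 ^ (3 * l) = z % 2 ^ (3 * l) := by
          rw [Int.mul_add_emod_self_left, Int.emod_emod_of_dvd _ (dvd_refl _)]
        linarith
      rw [a3, abs_of_nonneg (Int.natCast_nonneg _)]
      exact_mod_cast a2.le)
    rw [hBc] at h3
    exact h3
  have hmaps : ∀ z ∈ As V i s, z / 2 ^ (3 * l) ∈ range (2 ^ (i - 3 * l)) := by
    intro z hz
    have h3 := (hkey z hz).1
    rw [mem_range]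
    apply Nat.div_lt_of_lt_mul
    rw [← pow_add]
    have : 3 * l + (i - 3 * l) = i := by omega
    rw [this]; exact h3
  have h3 : ((As V i s).card : ℝ) ≤ 2 ^ (i - 3 * l) * E := by
    rw [card_eq_sum_card_fiberwise hmaps]
    push_cast
    refine (sum_le_card_nsmul _ _ _ hpiece).trans (le_of_eq ?_)
    rw [card_range, nsmul_eq_mul]
    push_cast
    ring
  -- the arithmetic
  have hHc : 0 < H ^ (89 / 262 : ℝ) := Real.rpow_pos_of_pos hH0 _
  have hH4 : (2 : ℝ) ^ ((2 / 41 : ℝ) * i * (89 / 262)) ≤ H ^ (89 / 262 : ℝ) := by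
    rw [Real.rpow_mul (by norm_num)]
    exact Real.rpow_le_rpow (by positivity) hH3 (by norm_num)
  refine h3.trans ?_
  have e4 : (2 : ℝ) ^ (i - 3 * l) = 2 ^ ((i : ℝ) - ((3 * l : ℕ) : ℝ)) := by
    rw [← Real.rpow_natCast, Nat.cast_sub hli]
  have e5 : Real.exp (((3 * l : ℕ) : ℝ) * (Real.log 2 * Pool.Agent.N905.FM.η0)) =
      (2 : ℝ) ^ (((3 * l : ℕ) : ℝ) * Pool.Agent.N905.FM.η0) := by
    rw [Real.rpow_def_of_pos (by norm_num)]; congr 1; ring
  rw [hE, e5, e4]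
  set w : ℝ := ((3 * l : ℕ) : ℝ) with hw
  have e6 : (2 : ℝ) ^ ((i : ℝ) - w) * (C * ((2 : ℝ) ^ (w * Pool.Agent.N905.FM.η0) / H ^ (89 / 262 : ℝ))) =
      C * ((2 : ℝ) ^ ((i : ℝ) - w + w * Pool.Agent.N905.FM.η0)) / H ^ (89 / 262 : ℝ) := by
    rw [Real.rpow_add (by norm_num)]; ring
  rw [e6, div_le_iff₀ hHc]
  have e7 : (2 : ℝ) ^ ((i : ℝ) - w + w * Pool.Agent.N905.FM.η0) ≤
      2 * (2 : ℝ) ^ ((9384 / 10000 : ℝ) * i) * (2 : ℝ) ^ ((2 / 41 : ℝ) * i * (89 / 262)) := by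
    have e8 : (2 : ℝ) * (2 : ℝ) ^ ((9384 / 10000 : ℝ) * i) * (2 : ℝ) ^ ((2 / 41 : ℝ) * i * (89 / 262)) =
        2 ^ (1 + (9384 / 10000 : ℝ) * i + (2 / 41 : ℝ) * i * (89 / 262)) := by
      rw [Real.rpow_add (by norm_num), Real.rpow_add (by norm_num), Real.rpow_one]
    rw [e8]
    apply Real.rpow_le_rpow_of_exponent_le (by norm_num)
    have e9 : Pool.Agent.N905.FM.η0 = 93995 / 100000 := rfl
    rw [e9]
    linarith
  calc C * (2 : ℝ) ^ ((i : ℝ) - w + w * Pool.Agent.N905.FM.η0)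
      ≤ C * (2 * (2 : ℝ) ^ ((9384 / 10000 : ℝ) * i) * (2 : ℝ) ^ ((2 / 41 : ℝ) * i * (89 / 262))) := by gcongr
    _ ≤ C * (2 * (2 : ℝ) ^ ((9384 / 10000 : ℝ) * i) * H ^ (89 / 262 : ℝ)) := by gcongr
    _ = _ := by ring

end Pool.Agent.N905.EX
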